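import Mathlib

set_option autoImplicit false

open scoped Manifold ContDiff Topology
open Set Filter Complex

namespace Pool.Agent.Results.MP_c7085a_an.PointSep

/-- The unit bidisk minus the real plane. -/
def Omega : Set (Fin 2 → ℂ) := {z | (∀ i, ‖z i‖ < 1) ∧ ¬ ∀ i, (z i).im = 0}

/-- `D`, with the map `p`, is a connected unramified two-sheeted covering of the bidisk minus the
real plane, with the complex structure pulled back by `p`. -/
def IsTwoSheetedCover (D : Type) [TopologicalSpace D] [ChartedSpace (Fin 2 → ℂ) D]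
    (p : D → Omega) : Prop :=
  IsManifold 𝓘(ℂ, Fin 2 → ℂ) ω D ∧ ConnectedSpace D ∧ IsCoveringMap p ∧
    (∀ z : Omega, (p ⁻¹' {z}).ncard = 2) ∧
    IsLocalDiffeomorph 𝓘(ℂ, Fin 2 → ℂ) 𝓘(ℂ, Fin 2 → ℂ) ω (fun d => (p d : Fin 2 → ℂ))

/-! ### General facts on local homeomorphisms -/

section general

variable {E : Type*} [NormedAddCommGroup E] [NormedSpace ℂ E]
variable {Y : Type*} [TopologicalSpace Y] {X : Type*} [TopologicalSpace X]

/-- A space with a local homeomorphism `π` to `E`, viewed as a charted space: all charts are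
restrictions of `π`. -/
@[reducible] noncomputable def etale (π : Y → E) (h : IsLocalHomeomorph π) : ChartedSpace E Y where
  atlas := {e | ∃ y, e = (h y).choose}
  chartAt y := (h y).choose
  mem_chart_source y := (h y).choose_spec.1
  chart_mem_atlas y := ⟨y, rfl⟩

omit [NormedSpace ℂ E] in
theorem chart_coe (π : Y → E) (h : IsLocalHomeomorph π) (y : Y) :
    ((h y).choose : Y → E) = π := ((h y).choose_spec.2).symm

/-- the charted space structure on the target of a surjective local homeomorphism -/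
@[reducible] noncomputable def quotCharted (π : Y → E) (h : IsLocalHomeomorph π) (q : Y → X)
    (hq : IsLocalHomeomorph q) (g : X → Y) (hg : Function.RightInverse g q) : ChartedSpace E X :=
  @IsLocalHomeomorph.chartedSpaceOfRightInverse _ _ _ _ _ _ (etale π h) q hq g hg

/-- If the pairs of points of `Y` with the same image in `X` are related by maps of `Y` over `X`
which are given by analytic maps in the coordinates `π`, then the quotient charts make `X` a
complex manifold. -/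
theorem isManifold_quot (π : Y → E) (h : IsLocalHomeomorph π) (q : Y → X)
    (hq : IsLocalHomeomorph q) (g : X → Y) (hg : Function.RightInverse g q)
    (H : ∀ y₁ y₂ : Y, q y₁ = q y₂ → ∃ (t : Y → Y) (A : E → E), Continuous t ∧ t y₁ = y₂ ∧
      (∀ y, q (t y) = q y) ∧ (∀ y, π (t y) = A (π y)) ∧ ContDiff ℂ ω A) :
    @IsManifold ℂ _ E _ _ E _ 𝓘(ℂ, E) ω X _ (quotCharted π h q hq g hg) := by
  let _ := quotCharted π h q hq g hg
  refine isManifold_of_contDiffOn 𝓘(ℂ, E) ω X ?_
  rintro _ _ ⟨x₁, rfl⟩ ⟨x₂, rfl⟩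
  set L₁ := hq.localInverseAt (g x₁) with hL₁
  set L₂ := hq.localInverseAt (g x₂) with hL₂
  let c₁ := (h (g x₁)).choose
  let c₂ := (h (g x₂)).choose
  have hc₁ : (c₁ : Y → E) = π := chart_coe π h _
  have hc₂ : (c₂ : Y → E) = π := chart_coe π h _
  have hs₁ : (L₁.symm : Y → X) = q := hq.localInverseAt_symm _
  have hs₂ : (L₂.symm : Y → X) = q := hq.localInverseAt_symm _
  intro t₀ ht₀
  have hmem : t₀ ∈ ((L₁.trans c₁).symm.trans (L₂.trans c₂)).source := ht₀.1
  have m1 : t₀ ∈ c₁.target ∧ c₁.symm t₀ ∈ L₁.target := by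
    have := hmem.1
    simpa using this
  have m2 : q (c₁.symm t₀) ∈ L₂.source ∧ L₂ (q (c₁.symm t₀)) ∈ c₂.source := by
    have := hmem.2
    simpa [hs₁] using this
  have hy : q (c₁.symm t₀) = q (L₂ (q (c₁.symm t₀))) := by
    have h1 := L₂.left_inv m2.1
    rw [hs₂] at h1
    exact h1.symm
  obtain ⟨t, A, htc, ht1, htq, htA, hA⟩ := H _ _ hy
  have hev : ∀ᶠ t' in 𝓝 t₀, c₂ (L₂ (q (c₁.symm t'))) = A t' := by
    have h1 : ∀ᶠ t' in 𝓝 t₀, t' ∈ c₁.target := c₁.open_target.mem_nhds m1.1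
    have h2 : ContinuousAt (fun t' => t (c₁.symm t')) t₀ :=
      htc.continuousAt.comp (c₁.continuousAt_symm m1.1)
    have h3 : t (c₁.symm t₀) ∈ L₂.target := by
      rw [ht1]; exact L₂.map_source m2.1
    have h4 : ∀ᶠ t' in 𝓝 t₀, t (c₁.symm t') ∈ L₂.target :=
      h2.eventually_mem (L₂.open_target.mem_nhds h3)
    filter_upwards [h1, h4] with t' ht' ht''
    have e1 : L₂ (q (c₁.symm t')) = t (c₁.symm t') := by
      have h1 := L₂.right_inv ht''
      rw [hs₂, htq] at h1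
      exact h1
    rw [e1, hc₂, htA, ← hc₁, c₁.right_inv ht']
  have hfun : (𝓘(ℂ, E) ∘ (L₁.trans c₁).symm.trans (L₂.trans c₂) ∘ 𝓘(ℂ, E).symm) =
      fun t' => c₂ (L₂ (q (c₁.symm t'))) := by
    funext t'
    simp [hs₁]
  have : ContDiffWithinAt ℂ ω (fun t' => c₂ (L₂ (q (c₁.symm t'))))
      (𝓘(ℂ, E).symm ⁻¹' ((L₁.trans c₁).symm.trans (L₂.trans c₂)).source ∩ range 𝓘(ℂ, E)) t₀ :=
    (hA.contDiffAt.congr_of_eventuallyEq hev).contDiffWithinAt
  rw [← hfun] at this
  exact this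

/-- A map into the quotient manifold which lifts locally to `Y`, holomorphically in the
coordinates `π`, is holomorphic. -/
theorem contMDiffAt_quot (π : Y → E) (h : IsLocalHomeomorph π) (q : Y → X)
    (hq : IsLocalHomeomorph q) (g : X → Y) (hg : Function.RightInverse g q)
    (H : ∀ y₁ y₂ : Y, q y₁ = q y₂ → ∃ (t : Y → Y) (A : E → E), Continuous t ∧ t y₁ = y₂ ∧
      (∀ y, q (t y) = q y) ∧ (∀ y, π (t y) = A (π y)) ∧ ContDiff ℂ ω A)
    {F : Type*} [NormedAddCommGroup F] [NormedSpace ℂ F]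
    {D : Type*} [TopologicalSpace D] [ChartedSpace F D] (f : D → X) (d : D) (j : D → Y)
    (hj : ContinuousAt j d) (hf : f =ᶠ[𝓝 d] fun d' => q (j d'))
    (hπj : ContMDiffAt 𝓘(ℂ, F) 𝓘(ℂ, E) ω (fun d' => π (j d')) d) :
    @ContMDiffAt ℂ _ F _ _ F _ 𝓘(ℂ, F) D _ _ E _ _ E _ 𝓘(ℂ, E) X _
      (quotCharted π h q hq g hg) ω f d := by
  let _ := quotCharted π h q hq g hg
  set L := hq.localInverseAt (g (f d)) with hL
  let c := (h (g (f d))).choose
  have hc : (c : Y → E) = π := chart_coe π h _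
  have hs : (L.symm : Y → X) = q := hq.localInverseAt_symm _
  have hfd : f d = q (j d) := hf.self_of_nhds
  have hsrc : f d ∈ L.source := by
    have := (hq.apply_self_mem_localInverseAt_source : q (g (f d)) ∈ _)
    rwa [hg] at this
  rw [contMDiffAt_iff_target]
  refine ⟨?_, ?_⟩
  · have : ContinuousAt (fun d' => q (j d')) d := hq.continuous.continuousAt.comp hj
    exact this.congr hf.symm
  · have hy : q (j d) = q (L (q (j d))) := by
      have h1 := L.left_inv hsrc
      rw [hs, hfd] at h1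
      exact h1.symm
    obtain ⟨t, A, htc, ht1, htq, htA, hA⟩ := H _ _ hy
    have hev : (extChartAt 𝓘(ℂ, E) (f d) ∘ f) =ᶠ[𝓝 d] fun d' => A (π (j d')) := by
      have h2 : ContinuousAt (fun d' => t (j d')) d := htc.continuousAt.comp hj
      have h3 : t (j d) ∈ L.target := by
        rw [ht1]; apply L.map_source; rwa [← hfd]
      have h4 : ∀ᶠ d' in 𝓝 d, t (j d') ∈ L.target :=
        h2.eventually_mem (L.open_target.mem_nhds h3)
      filter_upwards [hf, h4] with d' hd' hd''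
      have e1 : L (q (j d')) = t (j d') := by
        have h1 := L.right_inv hd''
        rw [hs, htq] at h1
        exact h1
      have e2 : (extChartAt 𝓘(ℂ, E) (f d) ∘ f) d' = c (L (f d')) := rfl
      rw [e2, hd', e1, hc, htA]
    exact (hA.contMDiff.contMDiffAt.comp d hπj).congr_of_eventuallyEq hev

end general

/-! ### The covering given by a square root of a continuous function -/

section root

/-- a square root with positive real part on the slit plane -/
noncomputable def sq (z : ℂ) : ℂ := exp (log z / 2)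

theorem sq_sq {z : ℂ} (hz : z ≠ 0) : sq z ^ 2 = z := by
  rw [sq, ← exp_nat_mul]
  push_cast
  rw [mul_div_cancel₀ _ (two_ne_zero), exp_log hz]

theorem sq_re_pos {z : ℂ} (hz : z ∈ slitPlane) : 0 < (sq z).re := by
  rw [sq, exp_re]
  apply mul_pos (Real.exp_pos _)
  have h1 : (log z / 2).im = arg z / 2 := by
    rw [Complex.div_im]
    simp [log_im]
    ring
  rw [h1]
  apply Real.cos_pos_of_mem_Ioo
  have h2 := neg_pi_lt_arg z
  have h3 : arg z < Real.pi := by
    rcases (arg_le_pi z).lt_or_eq with h | h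
    · exact h
    · exact absurd h (mem_slitPlane_iff_arg.mp hz).1
  constructor <;> linarith

theorem sq_continuousAt {z : ℂ} (hz : z ∈ slitPlane) : ContinuousAt sq z := by
  unfold sq
  exact (continuous_exp.continuousAt).comp ((continuousAt_clog hz).div_const 2)

theorem eq_of_sq_eq {a b : ℂ} (ha : 0 < a.re) (hb : 0 < b.re) (h : a ^ 2 = b ^ 2) : a = b := by
  rcases sq_eq_sq_iff_eq_or_eq_neg.mp h with h | h
  · exact h
  · rw [h, neg_re] at ha
    linarith

theorem sq_mem_slit {w : ℂ} (hw : 0 < w.re) : w ^ 2 ∈ slitPlane := by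
  rw [mem_slitPlane_iff, pow_two, mul_re, mul_im]
  by_cases h : w.im = 0
  · left; rw [h]; nlinarith
  · right
    have : w.re * w.im ≠ 0 := mul_ne_zero hw.ne' h
    intro h'
    apply this
    linarith

variable {E : Type*} [TopologicalSpace E]

/-- the set of pairs `(e, η)` with `η ≠ 0` and `η ^ 2 = δ e` -/
abbrev Root (δ : E → ℂ) : Type _ := {p : E × ℂ // p.2 ≠ 0 ∧ p.2 ^ 2 = δ p.1}

open Classical in
/-- a local inverse of the projection -/
noncomputable def rootInv (δ : E → ℂ) (y₀ : Root δ) (e : E) : Root δ :=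
  if h : δ e ≠ 0 then ⟨(e, y₀.1.2 * sq (δ e / y₀.1.2 ^ 2)), by
    have h0 := y₀.2.1
    have h1 : δ e / y₀.1.2 ^ 2 ≠ 0 := div_ne_zero h (pow_ne_zero 2 h0)
    constructor
    · refine mul_ne_zero h0 ?_
      intro h2
      have := sq_sq h1
      rw [h2] at this
      exact h1 (by rw [← this]; simp)
    · rw [mul_pow, sq_sq h1]
      field_simp⟩
  else y₀

/-- the projection of the root covering, near a point -/
noncomputable def rootChart (δ : E → ℂ) (hδ : Continuous δ) (y₀ : Root δ) :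
    OpenPartialHomeomorph (Root δ) E where
  toFun y := y.1.1
  invFun := rootInv δ y₀
  source := {y | 0 < (y.1.2 / y₀.1.2).re}
  target := {e | δ e / y₀.1.2 ^ 2 ∈ slitPlane}
  map_source' := by
    intro y hy
    show δ y.1.1 / y₀.1.2 ^ 2 ∈ slitPlane
    rw [← y.2.2, ← div_pow]
    exact sq_mem_slit hy
  map_target' := by
    intro e he
    have he' : δ e / y₀.1.2 ^ 2 ∈ slitPlane := he
    have h0 := y₀.2.1
    have hne : δ e ≠ 0 := by
      intro h
      rw [h, zero_div] at he'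
      exact absurd he' (by simp)
    show 0 < ((rootInv δ y₀ e).1.2 / y₀.1.2).re
    rw [rootInv, dif_pos hne]
    show 0 < ((y₀.1.2 * sq (δ e / y₀.1.2 ^ 2)) / y₀.1.2).re
    rw [mul_div_cancel_left₀ _ h0]
    exact sq_re_pos he'
  left_inv' := by
    intro y hy
    have h0 := y₀.2.1
    have hy' : 0 < (y.1.2 / y₀.1.2).re := hy
    have hne : δ y.1.1 ≠ 0 := by
      rw [← y.2.2]; exact pow_ne_zero 2 y.2.1
    rw [rootInv, dif_pos hne]
    apply Subtype.ext
    apply Prod.ext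
    · rfl
    · show y₀.1.2 * sq (δ y.1.1 / y₀.1.2 ^ 2) = y.1.2
      rw [← y.2.2, ← div_pow]
      have h1 : sq ((y.1.2 / y₀.1.2) ^ 2) = y.1.2 / y₀.1.2 := by
        apply eq_of_sq_eq (sq_re_pos (sq_mem_slit hy')) hy'
        rw [sq_sq]
        exact pow_ne_zero 2 (div_ne_zero y.2.1 h0)
      rw [h1]
      field_simp
  right_inv' := by
    intro e he
    have he' : δ e / y₀.1.2 ^ 2 ∈ slitPlane := he
    have hne : δ e ≠ 0 := by
      intro h
      rw [h, zero_div] at he'
      exact absurd he' (by simp)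
    show (rootInv δ y₀ e).1.1 = e
    rw [rootInv, dif_pos hne]
  open_source := by
    have h : Continuous (fun y : Root δ => (y.1.2 / y₀.1.2).re) :=
      continuous_re.comp ((continuous_snd.comp continuous_subtype_val).div_const _)
    exact isOpen_lt continuous_const h
  open_target := by
    exact isOpen_slitPlane.preimage (hδ.div_const _)
  continuousOn_toFun := by
    exact (continuous_fst.comp continuous_subtype_val).continuousOn
  continuousOn_invFun := by
    intro e he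
    have he' : δ e / y₀.1.2 ^ 2 ∈ slitPlane := he
    have hnz : ∀ e' : E, δ e' / y₀.1.2 ^ 2 ∈ slitPlane → δ e' ≠ 0 := by
      intro e' he' h
      rw [h, zero_div] at he'
      exact absurd he' (by simp)
    apply ContinuousAt.continuousWithinAt
    refine (Topology.IsInducing.subtypeVal (Y := E × ℂ)
      (t := {p | p.2 ≠ 0 ∧ p.2 ^ 2 = δ p.1})).continuousAt_iff.mpr ?_
    have hev : (Subtype.val ∘ rootInv δ y₀) =ᶠ[𝓝 e]
        fun e' => (e', y₀.1.2 * sq (δ e' / y₀.1.2 ^ 2)) := by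
      have h1 : ∀ᶠ e' in 𝓝 e, δ e' / y₀.1.2 ^ 2 ∈ slitPlane :=
        (isOpen_slitPlane.preimage (hδ.div_const _)).mem_nhds he'
      filter_upwards [h1] with e' h'
      show (rootInv δ y₀ e').1 = _
      rw [rootInv, dif_pos (hnz e' h')]
    refine ContinuousAt.congr ?_ hev.symm
    refine continuousAt_id.prodMk (continuousAt_const.mul ?_)
    exact ContinuousAt.comp (g := sq) (sq_continuousAt he') (hδ.div_const _).continuousAt

theorem root_isLocalHomeomorph (δ : E → ℂ) (hδ : Continuous δ) :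
    IsLocalHomeomorph (fun y : Root δ => y.1.1) := by
  intro y₀
  refine ⟨rootChart δ hδ y₀, ?_, rfl⟩
  show 0 < (y₀.1.2 / y₀.1.2).re
  rw [div_self y₀.2.1]
  simp

end root

/-! ### The discrete group -/

section group

theorem r2_sq : √(2 : ℝ) * √2 = ((2 : ℤ) : ℝ) := by
  rw [Real.mul_self_sqrt (by norm_num)]; norm_num

/-- first real embedding of `ℤ[√2]` -/
noncomputable def s1 : ℤ√2 →+* ℝ := Zsqrtd.lift ⟨√2, r2_sq⟩

/-- second real embedding of `ℤ[√2]` -/
noncomputable def s2 : ℤ√2 →+* ℝ := Zsqrtd.lift ⟨-√2, by rw [neg_mul_neg]; exact r2_sq⟩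

theorem s1_apply (x : ℤ√2) : s1 x = x.re + x.im * √2 := rfl

theorem s2_apply (x : ℤ√2) : s2 x = x.re + x.im * (-√2) := rfl

/-- the fundamental unit `1 + √2` -/
def u : (ℤ√2)ˣ := ⟨⟨1, 1⟩, ⟨-1, 1⟩, by ext <;> rfl, by ext <;> rfl⟩

noncomputable def A : ℝ := 1 + √2

noncomputable def B : ℝ := 1 - √2

theorem s1_u : s1 (u : ℤ√2) = A := by
  rw [s1_apply, A]; simp [u]

theorem s2_u : s2 (u : ℤ√2) = B := by
  rw [s2_apply, B]; simp [u]; ring

theorem s1_zpow (k : ℤ) : s1 ((u ^ k : (ℤ√2)ˣ) : ℤ√2) = A ^ k := by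
  have h := congrArg Units.val (map_zpow (Units.map (s1 : ℤ√2 →* ℝ)) u k)
  rw [Units.coe_map, Units.val_zpow_eq_zpow_val, Units.coe_map] at h
  change s1 _ = (s1 _) ^ k at h
  rwa [s1_u] at h

theorem s2_zpow (k : ℤ) : s2 ((u ^ k : (ℤ√2)ˣ) : ℤ√2) = B ^ k := by
  have h := congrArg Units.val (map_zpow (Units.map (s2 : ℤ√2 →* ℝ)) u k)
  rw [Units.coe_map, Units.val_zpow_eq_zpow_val, Units.coe_map] at h
  change s2 _ = (s2 _) ^ k at h
  rwa [s2_u] at h

theorem A_pos : 0 < A := by rw [A]; positivity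

theorem one_lt_A : 1 < A := by rw [A]; linarith [Real.sqrt_pos.mpr (two_pos : (0 : ℝ) < 2)]

theorem AB : A * B = -1 := by
  rw [A, B]
  have := r2_sq
  push_cast at this
  linear_combination -this

theorem B_ne : B ≠ 0 := by
  intro h
  have := AB
  rw [h] at this
  norm_num at this

theorem abs_B : |B| = A⁻¹ := by
  have h := congrArg abs AB
  rw [abs_mul, abs_of_pos A_pos, abs_neg, abs_one] at h
  exact (inv_eq_of_mul_eq_one_right h).symm

/-- the discrete group `ℤ[√2]² ⋊ ℤ` -/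
@[ext] structure Gam where
  k : ℤ
  l : ℤ√2
  m : ℤ√2

instance : Mul Gam :=
  ⟨fun g h => ⟨g.k + h.k, g.l + ((u ^ g.k : (ℤ√2)ˣ) : ℤ√2) * h.l,
    g.m + ((u ^ g.k : (ℤ√2)ˣ) : ℤ√2) * h.m⟩⟩
instance : One Gam := ⟨⟨0, 0, 0⟩⟩
instance : Inv Gam :=
  ⟨fun g => ⟨-g.k, -(((u ^ (-g.k) : (ℤ√2)ˣ) : ℤ√2) * g.l),
    -(((u ^ (-g.k) : (ℤ√2)ˣ) : ℤ√2) * g.m)⟩⟩

theorem mul_k (g h : Gam) : (g * h).k = g.k + h.k := rfl
theorem mul_l (g h : Gam) : (g * h).l = g.l + ((u ^ g.k : (ℤ√2)ˣ) : ℤ√2) * h.l := rfl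
theorem mul_m (g h : Gam) : (g * h).m = g.m + ((u ^ g.k : (ℤ√2)ˣ) : ℤ√2) * h.m := rfl
theorem one_k : (1 : Gam).k = 0 := rfl
theorem one_l : (1 : Gam).l = 0 := rfl
theorem one_m : (1 : Gam).m = 0 := rfl
theorem inv_k (g : Gam) : (g⁻¹).k = -g.k := rfl
theorem inv_l (g : Gam) : (g⁻¹).l = -(((u ^ (-g.k) : (ℤ√2)ˣ) : ℤ√2) * g.l) := rfl
theorem inv_m (g : Gam) : (g⁻¹).m = -(((u ^ (-g.k) : (ℤ√2)ˣ) : ℤ√2) * g.m) := rfl

instance : Group Gam := Group.ofLeftAxioms
  (by
    intro a b c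
    ext1
    · simp only [mul_k, add_assoc]
    · simp only [mul_k, mul_l, zpow_add, Units.val_mul]; ring
    · simp only [mul_k, mul_m, zpow_add, Units.val_mul]; ring)
  (by
    intro a
    ext1
    · simp only [mul_k, one_k, zero_add]
    · simp only [mul_l, one_k, one_l, zpow_zero, Units.val_one, one_mul, zero_add]
    · simp only [mul_m, one_k, one_m, zpow_zero, Units.val_one, one_mul, zero_add])
  (by
    intro a
    ext1
    · simp only [mul_k, inv_k, one_k, neg_add_cancel]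
    · simp only [mul_l, inv_l, inv_k, one_l, neg_add_cancel]
    · simp only [mul_m, inv_m, inv_k, one_m, neg_add_cancel])

/-- the affine action on `ℂ³` -/
noncomputable def aff (g : Gam) (e : Fin 3 → ℂ) : Fin 3 → ℂ :=
  ![((A ^ g.k : ℝ) : ℂ) * e 0 + (s1 g.l : ℂ), ((A ^ g.k : ℝ) : ℂ) * e 1 + (s1 g.m : ℂ),
    ((B ^ g.k : ℝ) : ℂ) * e 2 + ((s2 g.l : ℂ) + (s2 g.m : ℂ) * I)]

theorem aff_zero (g : Gam) (e : Fin 3 → ℂ) :
    aff g e 0 = ((A ^ g.k : ℝ) : ℂ) * e 0 + (s1 g.l : ℂ) := rfl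
theorem aff_one' (g : Gam) (e : Fin 3 → ℂ) :
    aff g e 1 = ((A ^ g.k : ℝ) : ℂ) * e 1 + (s1 g.m : ℂ) := rfl
theorem aff_two (g : Gam) (e : Fin 3 → ℂ) :
    aff g e 2 = ((B ^ g.k : ℝ) : ℂ) * e 2 + ((s2 g.l : ℂ) + (s2 g.m : ℂ) * I) := rfl

theorem aff_id (e : Fin 3 → ℂ) : aff 1 e = e := by
  ext i
  fin_cases i
  · show aff 1 e 0 = e 0
    rw [aff_zero, one_k, one_l]; simp
  · show aff 1 e 1 = e 1
    rw [aff_one', one_k, one_m]; simp
  · show aff 1 e 2 = e 2
    rw [aff_two, one_k, one_l, one_m]; simp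

theorem aff_mul (g h : Gam) (e : Fin 3 → ℂ) : aff (g * h) e = aff g (aff h e) := by
  have hA : A ≠ 0 := A_pos.ne'
  have hB : B ≠ 0 := B_ne
  ext i
  fin_cases i
  · show aff (g * h) e 0 = aff g (aff h e) 0
    rw [aff_zero, aff_zero, aff_zero, mul_k, mul_l, map_add, map_mul, s1_zpow, zpow_add₀ hA]
    push_cast
    ring
  · show aff (g * h) e 1 = aff g (aff h e) 1
    rw [aff_one', aff_one', aff_one', mul_k, mul_m, map_add, map_mul, s1_zpow, zpow_add₀ hA]
    push_cast
    ring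
  · show aff (g * h) e 2 = aff g (aff h e) 2
    rw [aff_two, aff_two, aff_two, mul_k, mul_l, mul_m, map_add, map_mul, map_add, map_mul,
      s2_zpow, zpow_add₀ hB]
    push_cast
    ring

/-- the imaginary parts of the first two coordinates, as a complex number -/
noncomputable def delta (e : Fin 3 → ℂ) : ℂ := ((e 0).im : ℂ) + ((e 1).im : ℂ) * I

theorem delta_aff (g : Gam) (e : Fin 3 → ℂ) :
    delta (aff g e) = ((A ^ g.k : ℝ) : ℂ) * delta e := by
  rw [delta, delta, aff_zero, aff_one']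
  rw [Complex.add_im, Complex.add_im, ofReal_im, ofReal_im, im_ofReal_mul, im_ofReal_mul]
  push_cast
  ring

theorem continuous_delta : Continuous delta := by
  unfold delta
  fun_prop

noncomputable def s : ℝ := √A

theorem s_sq : s ^ 2 = A := Real.sq_sqrt A_pos.le

theorem one_lt_s : 1 < s := by
  rw [s, Real.lt_sqrt (by norm_num)]
  simpa using one_lt_A

theorem s_pos : 0 < s := lt_trans one_pos one_lt_s

theorem s_zpow_sq (k : ℤ) : (s ^ k) ^ 2 = A ^ k := by
  rw [← s_sq, ← zpow_natCast, ← zpow_natCast, ← zpow_mul, ← zpow_mul, mul_comm]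

end group

/-! ### The action on the covering of `ℂ³` minus a real subspace -/

section action

/-- the double covering of `{e ∈ ℂ³ : (Im e₀, Im e₁) ≠ 0}` -/
abbrev Y : Type := Root delta

noncomputable instance : SMul Gam Y where
  smul g y := ⟨(aff g y.1.1, ((s ^ g.k : ℝ) : ℂ) * y.1.2), by
    constructor
    · refine mul_ne_zero ?_ y.2.1
      exact_mod_cast (zpow_pos s_pos _).ne'
    · rw [mul_pow, y.2.2, delta_aff, ← s_zpow_sq]
      push_cast
      rfl⟩

theorem smul_fst (g : Gam) (y : Y) : (g • y).1.1 = aff g y.1.1 := rfl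
theorem smul_snd (g : Gam) (y : Y) : (g • y).1.2 = ((s ^ g.k : ℝ) : ℂ) * y.1.2 := rfl

noncomputable instance : MulAction Gam Y where
  one_smul y := by
    apply Subtype.ext
    apply Prod.ext
    · rw [smul_fst, aff_id]
    · rw [smul_snd, one_k]; simp
  mul_smul g h y := by
    apply Subtype.ext
    apply Prod.ext
    · rw [smul_fst, smul_fst, smul_fst, aff_mul]
    · rw [smul_snd, smul_snd, smul_snd, mul_k, zpow_add₀ s_pos.ne']
      push_cast
      ring

theorem continuous_aff (g : Gam) : Continuous (aff g) := by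
  apply continuous_pi
  intro i
  fin_cases i
  · show Continuous (fun e => aff g e 0)
    simp only [aff_zero]; fun_prop
  · show Continuous (fun e => aff g e 1)
    simp only [aff_one']; fun_prop
  · show Continuous (fun e => aff g e 2)
    simp only [aff_two]; fun_prop

theorem contDiff_aff (g : Gam) : ContDiff ℂ ω (aff g) := by
  rw [contDiff_pi]
  intro i
  fin_cases i
  · show ContDiff ℂ ω (fun e => aff g e 0)
    simp only [aff_zero]; fun_prop
  · show ContDiff ℂ ω (fun e => aff g e 1)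
    simp only [aff_one']; fun_prop
  · show ContDiff ℂ ω (fun e => aff g e 2)
    simp only [aff_two]; fun_prop

instance : ContinuousConstSMul Gam Y where
  continuous_const_smul g := by
    refine Continuous.subtype_mk ?_ _
    refine Continuous.prodMk ?_ ?_
    · exact (continuous_aff g).comp (continuous_fst.comp continuous_subtype_val)
    · exact continuous_const.mul (continuous_snd.comp continuous_subtype_val)

theorem s1_inj {x : ℤ√2} (h : s1 x = 0) : x = 0 := by
  have := Zsqrtd.lift_injective (R := ℝ) (d := 2) ⟨√2, r2_sq⟩ (by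
    intro n hn
    have h1 : n < 2 := by nlinarith
    have h2 : -2 < n := by nlinarith
    interval_cases n <;> omega)
  apply this
  rw [map_zero]
  exact h

theorem zpow_eq_one_imp {k : ℤ} (h : s ^ k = 1) : k = 0 := by
  rcases lt_trichotomy k 0 with hk | hk | hk
  · have := zpow_lt_one_of_neg₀ one_lt_s hk
    linarith
  · exact hk
  · have := one_lt_zpow₀ one_lt_s hk
    linarith

instance : IsCancelSMul Gam Y := by
  rw [isCancelSMul_iff_eq_one_of_smul_eq]
  intro g y h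
  have h2 : ((s ^ g.k : ℝ) : ℂ) * y.1.2 = y.1.2 := by rw [← smul_snd, h]
  have h1 : aff g y.1.1 = y.1.1 := by rw [← smul_fst, h]
  have hs : ((s ^ g.k : ℝ) : ℂ) = 1 := by
    have := mul_right_cancel₀ y.2.1 (h2.trans (one_mul _).symm)
    exact this
  have hk : g.k = 0 := zpow_eq_one_imp (by exact_mod_cast hs)
  have e0 : aff g y.1.1 0 = y.1.1 0 := by rw [h1]
  have e1 : aff g y.1.1 1 = y.1.1 1 := by rw [h1]
  rw [aff_zero, hk] at e0
  rw [aff_one', hk] at e1
  simp at e0 e1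
  ext1
  · exact hk
  · exact s1_inj e0
  · exact s1_inj e1

theorem bound_k {k : ℤ} {R : ℝ} (N : ℕ) (hN : R < s ^ N) (h : s ^ k ≤ R) : k < N := by
  by_contra hk
  push Not at hk
  have : s ^ (N : ℤ) ≤ s ^ k := zpow_le_zpow_right₀ one_lt_s.le hk
  rw [zpow_natCast] at this
  linarith

theorem bound_Z {x : ℤ√2} {R : ℝ} (h1 : |s1 x| ≤ R) (h2 : |s2 x| ≤ R) :
    |(x.re : ℝ)| ≤ R ∧ |(x.im : ℝ)| ≤ R := by
  rw [s1_apply, abs_le] at h1
  rw [s2_apply, abs_le] at h2
  have h4 : (1 : ℝ) ≤ √2 := by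
    rw [Real.one_le_sqrt]; norm_num
  have h5 : |(x.im : ℝ) * √2| ≤ R := by
    rw [abs_le]; constructor <;> linarith
  rw [abs_mul, abs_of_nonneg (Real.sqrt_nonneg 2)] at h5
  refine ⟨by rw [abs_le]; constructor <;> linarith, ?_⟩
  nlinarith [abs_nonneg (x.im : ℝ)]

theorem A_zpow_pos (k : ℤ) : 0 < A ^ k := zpow_pos A_pos k

theorem abs_B_zpow (k : ℤ) : |B ^ k| = (s ^ (-k)) ^ 2 := by
  rw [s_zpow_sq, abs_zpow, abs_B, inv_zpow, zpow_neg]

/-- coordinates on the group -/
def coords (g : Gam) : ℤ × (ℤ × ℤ) × (ℤ × ℤ) := (g.k, (g.l.re, g.l.im), (g.m.re, g.m.im))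

theorem coords_injective : Function.Injective coords := by
  intro g h hgh
  simp only [coords, Prod.mk.injEq] at hgh
  obtain ⟨h1, ⟨h2, h3⟩, h4, h5⟩ := hgh
  ext1
  · exact h1
  · exact Zsqrtd.ext h2 h3
  · exact Zsqrtd.ext h4 h5

theorem int_bound {n : ℤ} {R : ℝ} (M : ℕ) (hM : R ≤ M) (h : |(n : ℝ)| ≤ R) :
    n ∈ Icc (-(M : ℤ)) M := by
  rw [abs_le] at h
  constructor
  · have : -(M : ℝ) ≤ n := by linarith
    exact_mod_cast this
  · have : (n : ℝ) ≤ M := by linarith
    exact_mod_cast this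

theorem smul_bound (R : ℝ) (hR : 1 ≤ R) (y : Y) (g : Gam)
    (h1 : ‖y.1.1‖ ≤ R) (h2 : ‖y.1.2‖ ≤ R) (h3 : ‖y.1.2⁻¹‖ ≤ R)
    (h1' : ‖(g • y).1.1‖ ≤ R) (h2' : ‖(g • y).1.2‖ ≤ R) (h3' : ‖(g • y).1.2⁻¹‖ ≤ R) :
    s ^ g.k ≤ R * R ∧ s ^ (-g.k) ≤ R * R ∧
    |(g.l.re : ℝ)| ≤ R + (R * R) ^ 2 * R ∧ |(g.l.im : ℝ)| ≤ R + (R * R) ^ 2 * R ∧
    |(g.m.re : ℝ)| ≤ R + (R * R) ^ 2 * R ∧ |(g.m.im : ℝ)| ≤ R + (R * R) ^ 2 * R := by
  have hη : 0 < ‖y.1.2‖ := norm_pos_iff.mpr y.2.1
  have hη' : 0 < ‖(g • y).1.2‖ := norm_pos_iff.mpr (g • y).2.1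
  have hs : ‖(g • y).1.2‖ = s ^ g.k * ‖y.1.2‖ := by
    rw [smul_snd, norm_mul, Complex.norm_real, Real.norm_of_nonneg (zpow_pos s_pos _).le]
  have k1 : s ^ g.k ≤ R * R := by
    have : s ^ g.k = ‖(g • y).1.2‖ * ‖y.1.2⁻¹‖ := by
      rw [hs, norm_inv]; field_simp
    rw [this]
    exact mul_le_mul h2' h3 (norm_nonneg _) (by linarith)
  have k2 : s ^ (-g.k) ≤ R * R := by
    have : s ^ (-g.k) = ‖y.1.2‖ * ‖(g • y).1.2⁻¹‖ := by
      rw [norm_inv, hs, zpow_neg]
      have := (zpow_pos s_pos g.k).ne'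
      field_simp
    rw [this]
    exact mul_le_mul h2 h3' (norm_nonneg _) (by linarith)
  have hA : A ^ g.k ≤ (R * R) ^ 2 := by
    rw [← s_zpow_sq]
    exact pow_le_pow_left₀ (zpow_pos s_pos _).le k1 2
  have hB : |B ^ g.k| ≤ (R * R) ^ 2 := by
    rw [abs_B_zpow]
    exact pow_le_pow_left₀ (zpow_pos s_pos _).le k2 2
  have bnd : ∀ i, ‖y.1.1 i‖ ≤ R := fun i => (norm_le_pi_norm _ i).trans h1
  have bnd' : ∀ i, ‖(g • y).1.1 i‖ ≤ R := fun i => (norm_le_pi_norm _ i).trans h1'
  have c0 : |s1 g.l| ≤ R + (R * R) ^ 2 * R := by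
    have e : ((s1 g.l : ℝ) : ℂ) = (g • y).1.1 0 - ((A ^ g.k : ℝ) : ℂ) * y.1.1 0 := by
      rw [smul_fst, aff_zero]; ring
    calc |s1 g.l| = ‖((s1 g.l : ℝ) : ℂ)‖ := by rw [Complex.norm_real]; rfl
      _ ≤ ‖(g • y).1.1 0‖ + ‖((A ^ g.k : ℝ) : ℂ) * y.1.1 0‖ := by rw [e]; exact norm_sub_le _ _
      _ ≤ R + (R * R) ^ 2 * R := by
        rw [norm_mul, Complex.norm_real, Real.norm_of_nonneg (A_zpow_pos _).le]
        have := mul_le_mul hA (bnd 0) (norm_nonneg _) (by positivity)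
        linarith [bnd' 0]
  have c1 : |s1 g.m| ≤ R + (R * R) ^ 2 * R := by
    have e : ((s1 g.m : ℝ) : ℂ) = (g • y).1.1 1 - ((A ^ g.k : ℝ) : ℂ) * y.1.1 1 := by
      rw [smul_fst, aff_one']; ring
    calc |s1 g.m| = ‖((s1 g.m : ℝ) : ℂ)‖ := by rw [Complex.norm_real]; rfl
      _ ≤ ‖(g • y).1.1 1‖ + ‖((A ^ g.k : ℝ) : ℂ) * y.1.1 1‖ := by rw [e]; exact norm_sub_le _ _
      _ ≤ R + (R * R) ^ 2 * R := by
        rw [norm_mul, Complex.norm_real, Real.norm_of_nonneg (A_zpow_pos _).le]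
        have := mul_le_mul hA (bnd 1) (norm_nonneg _) (by positivity)
        linarith [bnd' 1]
  have c2 : ‖(s2 g.l : ℂ) + (s2 g.m : ℂ) * I‖ ≤ R + (R * R) ^ 2 * R := by
    have e : (s2 g.l : ℂ) + (s2 g.m : ℂ) * I =
        (g • y).1.1 2 - ((B ^ g.k : ℝ) : ℂ) * y.1.1 2 := by
      rw [smul_fst, aff_two]; ring
    calc ‖(s2 g.l : ℂ) + (s2 g.m : ℂ) * I‖
        ≤ ‖(g • y).1.1 2‖ + ‖((B ^ g.k : ℝ) : ℂ) * y.1.1 2‖ := by rw [e]; exact norm_sub_le _ _
      _ ≤ R + (R * R) ^ 2 * R := by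
        rw [norm_mul, Complex.norm_real, Real.norm_eq_abs]
        have := mul_le_mul hB (bnd 2) (norm_nonneg _) (by positivity)
        linarith [bnd' 2]
  have c3 : |s2 g.l| ≤ R + (R * R) ^ 2 * R := by
    refine le_trans ?_ c2
    have := abs_re_le_norm ((s2 g.l : ℂ) + (s2 g.m : ℂ) * I)
    simpa using this
  have c4 : |s2 g.m| ≤ R + (R * R) ^ 2 * R := by
    refine le_trans ?_ c2
    have := abs_im_le_norm ((s2 g.l : ℂ) + (s2 g.m : ℂ) * I)
    simpa using this
  exact ⟨k1, k2, (bound_Z c0 c3).1, (bound_Z c0 c3).2, (bound_Z c1 c4).1, (bound_Z c1 c4).2⟩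

theorem compact_bound {K : Set Y} (hK : IsCompact K) :
    ∃ R : ℝ, ∀ y ∈ K, ‖y.1.1‖ ≤ R ∧ ‖y.1.2‖ ≤ R ∧ ‖y.1.2⁻¹‖ ≤ R := by
  have hc : Continuous (fun y : Y => (y.1.1, y.1.2, y.1.2⁻¹)) := by
    refine (continuous_fst.comp continuous_subtype_val).prodMk
      ((continuous_snd.comp continuous_subtype_val).prodMk
      ((continuous_snd.comp continuous_subtype_val).inv₀ ?_))
    intro y
    exact y.2.1
  obtain ⟨R, hR⟩ := hK.exists_bound_of_continuousOn hc.continuousOn
  refine ⟨R, fun y hy => ?_⟩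
  have := hR y hy
  rw [Prod.norm_def, Prod.norm_def] at this
  simp only [sup_le_iff] at this
  exact this

instance : ProperlyDiscontinuousSMul Gam Y where
  finite_disjoint_inter_image := by
    intro K L hK hL
    obtain ⟨R₁, hR₁⟩ := compact_bound hK
    obtain ⟨R₂, hR₂⟩ := compact_bound hL
    set R := max (max R₁ R₂) 1 with hR
    have hR1 : R₁ ≤ R := (le_max_left _ _).trans (le_max_left _ _)
    have hR2 : R₂ ≤ R := (le_max_right _ _).trans (le_max_left _ _)
    have h1R : 1 ≤ R := le_max_right _ _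
    obtain ⟨N, hN⟩ := pow_unbounded_of_one_lt (R * R) one_lt_s
    obtain ⟨M, hM⟩ := exists_nat_ge (R + (R * R) ^ 2 * R)
    have hfin : (Icc (-(N : ℤ)) N ×ˢ ((Icc (-(M : ℤ)) M ×ˢ Icc (-(M : ℤ)) M) ×ˢ
        (Icc (-(M : ℤ)) M ×ˢ Icc (-(M : ℤ)) M))).Finite :=
      (finite_Icc _ _).prod (((finite_Icc _ _).prod (finite_Icc _ _)).prod
        ((finite_Icc _ _).prod (finite_Icc _ _)))
    refine (hfin.preimage (f := coords) coords_injective.injOn).subset ?_
    rintro g ⟨_, ⟨y, hyK, rfl⟩, hyL⟩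
    obtain ⟨a1, a2, a3⟩ := hR₁ y hyK
    obtain ⟨b1, b2, b3⟩ := hR₂ (g • y) hyL
    obtain ⟨c1, c2, c3, c4, c5, c6⟩ := smul_bound R h1R y g (a1.trans hR1) (a2.trans hR1)
      (a3.trans hR1) (b1.trans hR2) (b2.trans hR2) (b3.trans hR2)
    have k1 := bound_k N hN c1
    have k2 := bound_k N hN c2
    refine ⟨⟨?_, k1.le⟩, ⟨int_bound M hM c3, int_bound M hM c4⟩, int_bound M hM c5,
      int_bound M hM c6⟩
    show -(N : ℤ) ≤ g.k
    linarith

end action

/-! ### The compact complex threefold -/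

section threefold

/-- the developing map of `Y` -/
def dev (y : Y) : Fin 3 → ℂ := y.1.1

theorem dev_local : IsLocalHomeomorph dev := root_isLocalHomeomorph delta continuous_delta

instance : LocallyCompactSpace Y := by
  let _ := etale dev dev_local
  exact ChartedSpace.locallyCompactSpace (Fin 3 → ℂ) Y

/-- the threefold -/
def X : Type := MulAction.orbitRel.Quotient Gam Y

noncomputable instance : TopologicalSpace X :=
  inferInstanceAs (TopologicalSpace (Quotient (MulAction.orbitRel Gam Y)))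

instance : T2Space X :=
  inferInstanceAs (T2Space (Quotient (MulAction.orbitRel Gam Y)))

/-- the quotient map -/
noncomputable def q : Y → X := Quotient.mk (MulAction.orbitRel Gam Y)

theorem q_covering : IsQuotientCoveringMap q Gam :=
  isQuotientCoveringMap_quotientMk_of_properlyDiscontinuousSMul

theorem q_local : IsLocalHomeomorph q := q_covering.isCoveringMap.isLocalHomeomorph

theorem q_surj : Function.Surjective q := Quotient.mk_surjective

theorem q_eq (y₁ y₂ : Y) : q y₁ = q y₂ ↔ ∃ g : Gam, g • y₁ = y₂ := by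
  rw [eq_comm, q_covering.apply_eq_iff_mem_orbit]
  rfl

theorem q_smul (g : Gam) (y : Y) : q (g • y) = q y := by
  rw [eq_comm, q_eq]; exact ⟨g, rfl⟩

/-- a section of the quotient map -/
noncomputable def sec : X → Y := Function.surjInv q_surj

theorem sec_q : Function.RightInverse sec q := Function.rightInverse_surjInv q_surj

theorem transitions (y₁ y₂ : Y) (h : q y₁ = q y₂) : ∃ (t : Y → Y) (A : (Fin 3 → ℂ) → (Fin 3 → ℂ)),
    Continuous t ∧ t y₁ = y₂ ∧ (∀ y, q (t y) = q y) ∧ (∀ y, dev (t y) = A (dev y)) ∧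
      ContDiff ℂ ω A := by
  obtain ⟨g, hg⟩ := (q_eq y₁ y₂).mp h
  exact ⟨fun y => g • y, aff g, continuous_const_smul g, hg, fun y => q_smul g y,
    fun y => rfl, contDiff_aff g⟩

noncomputable instance : ChartedSpace (Fin 3 → ℂ) X :=
  quotCharted dev dev_local q q_local sec sec_q

instance : IsManifold 𝓘(ℂ, Fin 3 → ℂ) ω X :=
  isManifold_quot dev dev_local q q_local sec sec_q transitions

/-- rounding in the lattice -/
theorem reduce (x t : ℝ) : ∃ l : ℤ√2, |x + s1 l| ≤ 2 ∧ |t + s2 l| ≤ 2 := by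
  refine ⟨⟨-round ((x + t) / 2), -round ((x - t) / (2 * √2))⟩, ?_, ?_⟩
  · rw [s1_apply]
    have h1 := abs_sub_round ((x + t) / 2)
    have h2 := abs_sub_round ((x - t) / (2 * √2))
    have h3 : √(2 : ℝ) ≤ 2 := by rw [Real.sqrt_le_left (by norm_num)]; norm_num
    have h4 : 0 < √(2 : ℝ) := by positivity
    have e : x + (((-round ((x + t) / 2) : ℤ) : ℝ) + ((-round ((x - t) / (2 * √2)) : ℤ) : ℝ) * √2)
        = ((x + t) / 2 - round ((x + t) / 2)) +
          ((x - t) / (2 * √2) - round ((x - t) / (2 * √2))) * √2 := by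
      push_cast
      field_simp
      ring
    rw [e]
    calc _ ≤ |(x + t) / 2 - round ((x + t) / 2)| +
          |((x - t) / (2 * √2) - round ((x - t) / (2 * √2))) * √2| := abs_add_le _ _
      _ ≤ 1 / 2 + 1 / 2 * 2 := by
        rw [abs_mul, abs_of_pos h4]
        have := mul_le_mul h2 h3 h4.le (by norm_num)
        linarith
      _ ≤ 2 := by norm_num
  · rw [s2_apply]
    have h1 := abs_sub_round ((x + t) / 2)
    have h2 := abs_sub_round ((x - t) / (2 * √2))
    have h3 : √(2 : ℝ) ≤ 2 := by rw [Real.sqrt_le_left (by norm_num)]; norm_num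
    have h4 : 0 < √(2 : ℝ) := by positivity
    have e : t + (((-round ((x + t) / 2) : ℤ) : ℝ) + ((-round ((x - t) / (2 * √2)) : ℤ) : ℝ) * (-√2))
        = ((x + t) / 2 - round ((x + t) / 2)) -
          ((x - t) / (2 * √2) - round ((x - t) / (2 * √2))) * √2 := by
      push_cast
      field_simp
      ring
    rw [e]
    calc _ ≤ |(x + t) / 2 - round ((x + t) / 2)| +
          |((x - t) / (2 * √2) - round ((x - t) / (2 * √2))) * √2| := abs_sub _ _
      _ ≤ 1 / 2 + 1 / 2 * 2 := by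
        rw [abs_mul, abs_of_pos h4]
        have := mul_le_mul h2 h3 h4.le (by norm_num)
        linarith
      _ ≤ 2 := by norm_num

/-- a compact set meeting all orbits -/
def Kset : Set Y := {y | 1 ≤ ‖y.1.2‖ ∧ ‖y.1.2‖ ≤ s ∧ |(y.1.1 0).re| ≤ 2 ∧ |(y.1.1 1).re| ≤ 2 ∧
  |(y.1.1 2).re| ≤ 2 ∧ |(y.1.1 2).im| ≤ 2}

theorem Kset_orbit (y : Y) : ∃ g : Gam, g • y ∈ Kset := by
  have hη : 0 < ‖y.1.2‖ := norm_pos_iff.mpr y.2.1
  obtain ⟨n, hn1, hn2⟩ := exists_mem_Ico_zpow hη one_lt_s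
  obtain ⟨l, hl1, hl2⟩ := reduce (A ^ (-n) * (y.1.1 0).re) (B ^ (-n) * (y.1.1 2).re)
  obtain ⟨m, hm1, hm2⟩ := reduce (A ^ (-n) * (y.1.1 1).re) (B ^ (-n) * (y.1.1 2).im)
  refine ⟨⟨-n, l, m⟩, ?_, ?_, ?_, ?_, ?_, ?_⟩
  · rw [smul_snd, norm_mul, Complex.norm_real, Real.norm_of_nonneg (zpow_pos s_pos _).le]
    show 1 ≤ s ^ (-n) * ‖y.1.2‖
    rw [zpow_neg, ← div_eq_inv_mul, one_le_div (zpow_pos s_pos _)]
    exact hn1
  · rw [smul_snd, norm_mul, Complex.norm_real, Real.norm_of_nonneg (zpow_pos s_pos _).le]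
    show s ^ (-n) * ‖y.1.2‖ ≤ s
    rw [zpow_neg, ← div_eq_inv_mul, div_le_iff₀ (zpow_pos s_pos _)]
    rw [zpow_add₀ s_pos.ne', zpow_one] at hn2
    linarith
  · rw [smul_fst, aff_zero, add_re, re_ofReal_mul, ofReal_re]
    exact hl1
  · rw [smul_fst, aff_one', add_re, re_ofReal_mul, ofReal_re]
    exact hm1
  · rw [smul_fst, aff_two, add_re, re_ofReal_mul]
    have : ((s2 l : ℂ) + (s2 m : ℂ) * I).re = s2 l := by simp
    show |B ^ (-n) * (y.1.1 2).re + ((s2 l : ℂ) + (s2 m : ℂ) * I).re| ≤ 2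
    rw [this]
    exact hl2
  · rw [smul_fst, aff_two, add_im, im_ofReal_mul]
    have : ((s2 l : ℂ) + (s2 m : ℂ) * I).im = s2 m := by simp
    show |B ^ (-n) * (y.1.1 2).im + ((s2 l : ℂ) + (s2 m : ℂ) * I).im| ≤ 2
    rw [this]
    exact hm2

theorem Kset_compact : IsCompact Kset := by
  rw [Topology.IsEmbedding.subtypeVal.isCompact_iff]
  have himg : (Subtype.val '' Kset : Set ((Fin 3 → ℂ) × ℂ)) =
      {p | 1 ≤ ‖p.2‖ ∧ ‖p.2‖ ≤ s ∧ |(p.1 0).re| ≤ 2 ∧ |(p.1 1).re| ≤ 2 ∧
        |(p.1 2).re| ≤ 2 ∧ |(p.1 2).im| ≤ 2 ∧ p.2 ^ 2 = delta p.1} := by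
    ext p
    constructor
    · rintro ⟨y, ⟨h1, h2, h3, h4, h5, h6⟩, rfl⟩
      exact ⟨h1, h2, h3, h4, h5, h6, y.2.2⟩
    · rintro ⟨h1, h2, h3, h4, h5, h6, h7⟩
      refine ⟨⟨p, ?_, h7⟩, ⟨h1, h2, h3, h4, h5, h6⟩, rfl⟩
      intro h
      rw [h, norm_zero] at h1
      linarith
  rw [himg]
  apply Metric.isCompact_of_isClosed_isBounded
  · have c2 : Continuous (fun p : (Fin 3 → ℂ) × ℂ => ‖p.2‖) := by fun_prop
    have c3 : ∀ i : Fin 3, Continuous (fun p : (Fin 3 → ℂ) × ℂ => |(p.1 i).re|) := by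
      intro i; fun_prop
    have c4 : ∀ i : Fin 3, Continuous (fun p : (Fin 3 → ℂ) × ℂ => |(p.1 i).im|) := by
      intro i; fun_prop
    have c5 : Continuous (fun p : (Fin 3 → ℂ) × ℂ => p.2 ^ 2) := by fun_prop
    have c6 : Continuous (fun p : (Fin 3 → ℂ) × ℂ => delta p.1) :=
      continuous_delta.comp continuous_fst
    exact (isClosed_le continuous_const c2).inter ((isClosed_le c2 continuous_const).inter
      ((isClosed_le (c3 0) continuous_const).inter ((isClosed_le (c3 1) continuous_const).inter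
      ((isClosed_le (c3 2) continuous_const).inter ((isClosed_le (c4 2) continuous_const).inter
      (isClosed_eq c5 c6))))))
  · rw [isBounded_iff_forall_norm_le]
    refine ⟨4 + s ^ 2, ?_⟩
    rintro p ⟨h1, h2, h3, h4, h5, h6, h7⟩
    have hs := one_lt_s
    have hd : ‖delta p.1‖ ≤ s ^ 2 := by
      rw [← h7, norm_pow]
      exact pow_le_pow_left₀ (norm_nonneg _) h2 2
    have d0 : |(p.1 0).im| ≤ s ^ 2 := by
      refine le_trans ?_ hd
      have := abs_re_le_norm (delta p.1)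
      simpa [delta] using this
    have d1 : |(p.1 1).im| ≤ s ^ 2 := by
      refine le_trans ?_ hd
      have := abs_im_le_norm (delta p.1)
      simpa [delta] using this
    rw [Prod.norm_def]
    apply sup_le
    · rw [pi_norm_le_iff_of_nonneg (by positivity)]
      intro i
      have key : ∀ z : ℂ, ‖z‖ ≤ |z.re| + |z.im| := fun z => norm_le_abs_re_add_abs_im z
      fin_cases i
      · have := key (p.1 0)
        show ‖p.1 0‖ ≤ 4 + s ^ 2
        linarith
      · have := key (p.1 1)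
        show ‖p.1 1‖ ≤ 4 + s ^ 2
        linarith
      · have := key (p.1 2)
        show ‖p.1 2‖ ≤ 4 + s ^ 2
        nlinarith
    · nlinarith

instance : CompactSpace X := by
  have h : q '' Kset = univ := by
    rw [eq_univ_iff_forall]
    intro x
    obtain ⟨y, rfl⟩ := q_surj x
    obtain ⟨g, hg⟩ := Kset_orbit y
    exact ⟨_, hg, q_smul g y⟩
  rw [← isCompact_univ_iff, ← h]
  exact Kset_compact.image q_local.continuous

end threefold

/-! ### A simply connected covering of the bidisk minus the real plane -/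

section simply

/-- the parametrisation of `ℂ²` minus the real plane by `ℝ × ℝ × ℂ` -/
noncomputable def zz (t : ℝ × ℝ × ℂ) : Fin 2 → ℂ :=
  ![(t.1 : ℂ) + ((exp (2 * t.2.2)).re : ℂ) * I, (t.2.1 : ℂ) + ((exp (2 * t.2.2)).im : ℂ) * I]

theorem zz_zero (t : ℝ × ℝ × ℂ) : zz t 0 = (t.1 : ℂ) + ((exp (2 * t.2.2)).re : ℂ) * I := rfl
theorem zz_one (t : ℝ × ℝ × ℂ) : zz t 1 = (t.2.1 : ℂ) + ((exp (2 * t.2.2)).im : ℂ) * I := rfl

theorem zz_zero_re (t : ℝ × ℝ × ℂ) : (zz t 0).re = t.1 := by rw [zz_zero]; simp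
theorem zz_zero_im (t : ℝ × ℝ × ℂ) : (zz t 0).im = (exp (2 * t.2.2)).re := by rw [zz_zero]; simp
theorem zz_one_re (t : ℝ × ℝ × ℂ) : (zz t 1).re = t.2.1 := by rw [zz_one]; simp
theorem zz_one_im (t : ℝ × ℝ × ℂ) : (zz t 1).im = (exp (2 * t.2.2)).im := by rw [zz_one]; simp

theorem continuous_zz : Continuous zz := by
  apply continuous_pi
  intro i
  fin_cases i
  · show Continuous (fun t => zz t 0)
    simp only [zz_zero]; fun_prop
  · show Continuous (fun t => zz t 1)
    simp only [zz_one]; fun_prop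

theorem zz_not_real (t : ℝ × ℝ × ℂ) : ¬ ∀ i, (zz t i).im = 0 := by
  intro h
  have h0 := h 0
  have h1 := h 1
  rw [zz_zero_im] at h0
  rw [zz_one_im] at h1
  exact exp_ne_zero (2 * t.2.2) (Complex.ext h0 h1)

theorem norm_lt_one_iff (z : ℂ) : ‖z‖ < 1 ↔ z.re ^ 2 + z.im ^ 2 < 1 := by
  rw [← sq_lt_one_iff₀ (norm_nonneg z), Complex.sq_norm, normSq_apply]
  constructor <;> intro h <;> nlinarith

theorem zz_mem_iff (t : ℝ × ℝ × ℂ) : zz t ∈ Omega ↔
    t.1 ^ 2 + (exp (2 * t.2.2)).re ^ 2 < 1 ∧ t.2.1 ^ 2 + (exp (2 * t.2.2)).im ^ 2 < 1 := by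
  rw [Omega, mem_ofPred_eq]
  simp only [zz_not_real t, not_false_eq_true, and_true]
  rw [Fin.forall_fin_two, norm_lt_one_iff, norm_lt_one_iff, zz_zero_re, zz_zero_im, zz_one_re,
    zz_one_im]

/-- the simply connected covering -/
abbrev T : Type := {t : ℝ × ℝ × ℂ // zz t ∈ Omega}

/-- scaling -/
noncomputable def sc (r : ℝ) (t : ℝ × ℝ × ℂ) : ℝ × ℝ × ℂ :=
  (Real.exp (-r) * t.1, Real.exp (-r) * t.2.1, t.2.2 - ((r / 2 : ℝ) : ℂ))

theorem exp_sc (r : ℝ) (t : ℝ × ℝ × ℂ) :
    exp (2 * (sc r t).2.2) = (Real.exp (-r) : ℝ) * exp (2 * t.2.2) := by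
  rw [sc, ofReal_exp, ← exp_add]
  congr 1
  push_cast
  ring

theorem continuous_sc : Continuous (fun p : ℝ × (ℝ × ℝ × ℂ) => sc p.1 p.2) := by
  unfold sc
  fun_prop

theorem sc_mem {r : ℝ} (hr : 0 ≤ r) {t : ℝ × ℝ × ℂ} (ht : zz t ∈ Omega) : zz (sc r t) ∈ Omega := by
  rw [zz_mem_iff] at ht ⊢
  rw [exp_sc, re_ofReal_mul, im_ofReal_mul]
  obtain ⟨h1, h2⟩ := ht
  have he : Real.exp (-r) ≤ 1 := by rw [Real.exp_le_one_iff]; linarith
  have he0 : 0 < Real.exp (-r) := Real.exp_pos _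
  have hee : Real.exp (-r) ^ 2 ≤ 1 := by nlinarith
  show (Real.exp (-r) * t.1) ^ 2 + _ < 1 ∧ (Real.exp (-r) * t.2.1) ^ 2 + _ < 1
  constructor
  · nlinarith [sq_nonneg t.1, sq_nonneg (exp (2 * t.2.2)).re]
  · nlinarith [sq_nonneg t.2.1, sq_nonneg (exp (2 * t.2.2)).im]

/-- a convex set in the covering -/
def T' : Set (ℝ × ℝ × ℂ) :=
  {t | t.1 ^ 2 + Real.exp (4 * t.2.2.re) < 1} ∩ {t | t.2.1 ^ 2 + Real.exp (4 * t.2.2.re) < 1}

theorem convex_T' : Convex ℝ T' := by
  have hexp : ConvexOn ℝ univ (fun t : ℝ × ℝ × ℂ => Real.exp (4 * t.2.2.re)) := by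
    have h := convexOn_exp.comp_linearMap
      ((4 : ℝ) • (reLm ∘ₗ LinearMap.snd ℝ ℝ ℂ ∘ₗ LinearMap.snd ℝ ℝ (ℝ × ℂ)))
    exact h
  have hsq : ConvexOn ℝ univ (fun x : ℝ => x ^ 2) := Even.convexOn_pow (by decide)
  have h1 : ConvexOn ℝ univ (fun t : ℝ × ℝ × ℂ => t.1 ^ 2) :=
    hsq.comp_linearMap (LinearMap.fst ℝ ℝ (ℝ × ℂ))
  have h2 : ConvexOn ℝ univ (fun t : ℝ × ℝ × ℂ => t.2.1 ^ 2) :=
    hsq.comp_linearMap (LinearMap.fst ℝ ℝ ℂ ∘ₗ LinearMap.snd ℝ ℝ (ℝ × ℂ))
  have c1 := (h1.add hexp).convex_lt 1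
  have c2 := (h2.add hexp).convex_lt 1
  simp only [mem_univ, true_and] at c1 c2
  exact c1.inter c2

theorem exp_sq (w : ℂ) : (exp (2 * w)).re ^ 2 + (exp (2 * w)).im ^ 2 = Real.exp (4 * w.re) := by
  have h1 : (exp (2 * w)).re ^ 2 + (exp (2 * w)).im ^ 2 = ‖exp (2 * w)‖ ^ 2 := by
    rw [Complex.sq_norm, normSq_apply]; ring
  rw [h1, Complex.norm_exp, ← Real.exp_nat_mul]
  congr 1
  simp
  ring

theorem T'_subset {t : ℝ × ℝ × ℂ} (ht : t ∈ T') : zz t ∈ Omega := by
  obtain ⟨h1, h2⟩ := ht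
  rw [mem_ofPred_eq] at h1 h2
  rw [zz_mem_iff]
  have h3 := exp_sq t.2.2
  constructor
  · nlinarith [sq_nonneg (exp (2 * t.2.2)).im]
  · nlinarith [sq_nonneg (exp (2 * t.2.2)).re]

theorem sc_mem_T' {t : ℝ × ℝ × ℂ} (ht : zz t ∈ Omega) : sc 1 t ∈ T' := by
  rw [zz_mem_iff] at ht
  obtain ⟨h1, h2⟩ := ht
  have h3 := exp_sq t.2.2
  have h4 : Real.exp (4 * (sc 1 t).2.2.re) = Real.exp (-1) ^ 2 * Real.exp (4 * t.2.2.re) := by
    rw [← Real.exp_nat_mul, ← Real.exp_add]
    congr 1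
    simp [sc]
    ring
  have he : Real.exp (-1) ^ 2 < 1 / 2 := by
    have h5 : (2 : ℝ) < Real.exp 1 := by
      have := Real.exp_one_gt_d9
      linarith
    rw [Real.exp_neg, inv_pow]
    rw [inv_lt_comm₀ (by positivity) (by norm_num)]
    nlinarith
  have he0 : 0 < Real.exp (-1) ^ 2 := by positivity
  constructor
  · show (Real.exp (-1) * t.1) ^ 2 + Real.exp (4 * (sc 1 t).2.2.re) < 1
    rw [h4, ← h3, mul_pow]
    nlinarith [sq_nonneg t.1, sq_nonneg t.2.1, sq_nonneg (exp (2 * t.2.2)).im,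
      sq_nonneg (exp (2 * t.2.2)).re]
  · show (Real.exp (-1) * t.2.1) ^ 2 + Real.exp (4 * (sc 1 t).2.2.re) < 1
    rw [h4, ← h3, mul_pow]
    nlinarith [sq_nonneg t.1, sq_nonneg t.2.1, sq_nonneg (exp (2 * t.2.2)).im,
      sq_nonneg (exp (2 * t.2.2)).re]

theorem T'_nonempty : T'.Nonempty := by
  refine ⟨(0, 0, -1), ?_⟩
  have : Real.exp (4 * (-1 : ℂ).re) < 1 := by
    rw [Real.exp_lt_one_iff]; norm_num
  constructor <;>
  · simp only [mem_ofPred_eq]
    linarith

instance : ContractibleSpace T := by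
  have : ContractibleSpace T' := convex_T'.contractibleSpace T'_nonempty
  rw [contractible_iff_id_nullhomotopic]
  let r : C(T, T') := ⟨fun t => ⟨sc 1 t.1, sc_mem_T' t.2⟩, by
    refine Continuous.subtype_mk ?_ _
    exact continuous_sc.comp (continuous_const.prodMk continuous_subtype_val)⟩
  let i : C(T', T) := ⟨fun t => ⟨t.1, T'_subset t.2⟩, by
    refine Continuous.subtype_mk ?_ _
    exact continuous_subtype_val⟩
  have h1 : (i.comp r).Nullhomotopic := by
    obtain ⟨y, hy⟩ := id_nullhomotopic T'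
    refine ⟨i y, ?_⟩
    have h2 := (ContinuousMap.Homotopic.refl i).comp (hy.comp (ContinuousMap.Homotopic.refl r))
    simpa using h2
  obtain ⟨y, hy⟩ := h1
  refine ⟨y, ContinuousMap.Homotopic.trans ?_ hy⟩
  refine ⟨{ toFun := fun p => ⟨sc p.1 p.2.1, sc_mem p.1.2.1 p.2.2⟩
            continuous_toFun := ?_
            map_zero_left := ?_
            map_one_left := ?_ }⟩
  · refine Continuous.subtype_mk ?_ _
    exact continuous_sc.comp ((continuous_subtype_val.comp continuous_fst).prodMk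
      (continuous_subtype_val.comp continuous_snd))
  · intro t
    apply Subtype.ext
    show sc 0 t.1 = t.1
    simp [sc]
  · intro t
    apply Subtype.ext
    show sc 1 t.1 = sc 1 t.1
    rfl

theorem isOpen_Omega : IsOpen Omega := by
  have h1 : IsOpen {z : Fin 2 → ℂ | ∀ i, ‖z i‖ < 1} := by
    simp only [ofPred_forall]
    exact isOpen_iInter_of_finite fun i => isOpen_lt (by fun_prop) continuous_const
  have h2 : IsOpen {z : Fin 2 → ℂ | ¬ ∀ i, (z i).im = 0} := by
    rw [← compl_ofPred, isOpen_compl_iff]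
    simp only [ofPred_forall]
    exact isClosed_iInter fun i => isClosed_eq (by fun_prop) continuous_const
  exact h1.inter h2

instance : LocallyPathConnectedSpace T :=
  (isOpen_Omega.preimage continuous_zz).locallyPathConnectedSpace

instance : SimplyConnectedSpace T := inferInstance

end simply

section final

/-- the parametrisation of `Y` -/
noncomputable def par (c : ℂ) (t : ℝ × ℝ × ℂ) : Y :=
  ⟨(![zz t 0, zz t 1, c], exp t.2.2), exp_ne_zero _, by
    show exp t.2.2 ^ 2 = ((zz t 0).im : ℂ) + ((zz t 1).im : ℂ) * I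
    rw [zz_zero_im, zz_one_im, re_add_im, ← exp_nat_mul]
    push_cast
    rfl⟩

theorem continuous_par : Continuous (fun p : ℂ × (ℝ × ℝ × ℂ) => par p.1 p.2) := by
  refine Continuous.subtype_mk ?_ _
  have hz : Continuous (fun p : ℂ × (ℝ × ℝ × ℂ) => zz p.2) := continuous_zz.comp continuous_snd
  refine Continuous.prodMk ?_ (by fun_prop)
  apply continuous_pi
  intro i
  fin_cases i
  · exact (continuous_apply (0 : Fin 2)).comp hz
  · exact (continuous_apply (1 : Fin 2)).comp hz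
  · exact continuous_fst

theorem par_surj (y : Y) : ∃ (c : ℂ) (t : ℝ × ℝ × ℂ), par c t = y := by
  refine ⟨y.1.1 2, ((y.1.1 0).re, (y.1.1 1).re, log y.1.2), ?_⟩
  have he : exp (log y.1.2) = y.1.2 := exp_log y.2.1
  have he2 : exp (2 * log y.1.2) = ((y.1.1 0).im : ℂ) + ((y.1.1 1).im : ℂ) * I := by
    have := exp_nat_mul (log y.1.2) 2
    rw [he, y.2.2] at this
    push_cast at this
    exact this
  apply Subtype.ext
  apply Prod.ext
  · show ![zz _ 0, zz _ 1, _] = y.1.1
    ext i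
    fin_cases i
    · show zz _ 0 = y.1.1 0
      apply Complex.ext
      · rw [zz_zero_re]
      · rw [zz_zero_im]
        show (exp (2 * log y.1.2)).re = _
        rw [he2]; simp
    · show zz _ 1 = y.1.1 1
      apply Complex.ext
      · rw [zz_one_re]
      · rw [zz_one_im]
        show (exp (2 * log y.1.2)).im = _
        rw [he2]; simp
    · rfl
  · exact he

instance : ConnectedSpace X := by
  have hs : Function.Surjective (fun p : ℂ × (ℝ × ℝ × ℂ) => q (par p.1 p.2)) := by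
    intro x
    obtain ⟨y, rfl⟩ := q_surj x
    obtain ⟨c, t, rfl⟩ := par_surj y
    exact ⟨(c, t), rfl⟩
  exact hs.connectedSpace (q_local.continuous.comp continuous_par)

instance : SecondCountableTopology X :=
  ChartedSpace.secondCountable_of_sigmaCompact (Fin 3 → ℂ) X

instance : Countable Gam := coords_injective.countable

theorem B_zpow_ne {k : ℤ} (hk : k ≠ 0) : B ^ k ≠ 1 := by
  intro h
  have h1 := abs_B_zpow k
  rw [h, abs_one] at h1
  have h2 : 0 < s ^ (-k) := zpow_pos s_pos _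
  have h3 : s ^ (-k) = 1 := by nlinarith
  have := zpow_eq_one_imp h3
  omega

/-- a point fixed by no nontrivial group element in the third coordinate -/
theorem exists_good : ∃ c : ℂ, ∀ g : Gam,
    ((B ^ g.k : ℝ) : ℂ) * c + ((s2 g.l : ℂ) + (s2 g.m : ℂ) * I) = c → g = 1 := by
  have hc : (range (fun g : Gam => ((s2 g.l : ℂ) + (s2 g.m : ℂ) * I) /
      (1 - ((B ^ g.k : ℝ) : ℂ)))).Countable := countable_range _
  obtain ⟨c, hc⟩ := (hc.dense_compl ℝ).nonempty
  refine ⟨c, fun g hg => ?_⟩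
  by_cases hk : g.k = 0
  · rw [hk, zpow_zero, ofReal_one, one_mul] at hg
    have h1 : (s2 g.l : ℂ) + (s2 g.m : ℂ) * I = 0 := by
      have := congrArg (fun x => x - c) hg
      simpa using this
    have h2 : s2 g.l = 0 := by
      have := congrArg Complex.re h1
      simpa using this
    have h3 : s2 g.m = 0 := by
      have := congrArg Complex.im h1
      simpa using this
    have inj : ∀ x : ℤ√2, s2 x = 0 → x = 0 := by
      intro x hx
      have h4 := Zsqrtd.lift_injective (R := ℝ) (d := 2)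
        ⟨-√2, by rw [neg_mul_neg]; exact r2_sq⟩ (by
        intro n hn
        have h1 : n < 2 := by nlinarith
        have h2 : -2 < n := by nlinarith
        interval_cases n <;> omega)
      apply h4
      rw [map_zero]
      exact hx
    ext1
    · exact hk
    · exact inj _ h2
    · exact inj _ h3
  · exfalso
    apply hc
    refine ⟨g, ?_⟩
    have hne : (1 : ℂ) - ((B ^ g.k : ℝ) : ℂ) ≠ 0 := by
      intro h
      apply B_zpow_ne hk
      have : ((B ^ g.k : ℝ) : ℂ) = 1 := by linear_combination -h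
      exact_mod_cast this
    show _ / _ = c
    rw [div_eq_iff hne]
    linear_combination hg

theorem q_par_inj (c : ℂ) (hc : ∀ g : Gam,
    ((B ^ g.k : ℝ) : ℂ) * c + ((s2 g.l : ℂ) + (s2 g.m : ℂ) * I) = c → g = 1)
    (t t' : ℝ × ℝ × ℂ) (h : q (par c t) = q (par c t')) :
    zz t = zz t' ∧ exp t.2.2 = exp t'.2.2 := by
  obtain ⟨g, hg⟩ := (q_eq _ _).mp h
  have h2 : (g • par c t).1.1 2 = (par c t').1.1 2 := by rw [hg]
  rw [smul_fst, aff_two] at h2
  have hg1 : g = 1 := hc g h2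
  rw [hg1, one_smul] at hg
  have h3 : (par c t).1.1 = (par c t').1.1 := by rw [hg]
  have h4 : (par c t).1.2 = (par c t').1.2 := by rw [hg]
  refine ⟨?_, h4⟩
  ext i
  fin_cases i
  · exact congrFun h3 0
  · exact congrFun h3 1

theorem par_eq (c : ℂ) (t t' : ℝ × ℝ × ℂ) (h1 : zz t = zz t') (h2 : exp t.2.2 = exp t'.2.2) :
    par c t = par c t' := by
  apply Subtype.ext
  apply Prod.ext
  · show ![zz t 0, zz t 1, c] = ![zz t' 0, zz t' 1, c]
    rw [h1]
  · exact h2

/-- the projection of the simply connected covering -/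
noncomputable def pT : C(T, Omega) :=
  ⟨fun t => ⟨zz t.1, t.2⟩, (continuous_zz.comp continuous_subtype_val).subtype_mk _⟩

theorem pT_coe (t : T) : (pT t : Fin 2 → ℂ) = zz t.1 := rfl

/-- imaginary parts -/
noncomputable def dl (z : Fin 2 → ℂ) : ℂ := ((z 0).im : ℂ) + ((z 1).im : ℂ) * I

theorem dl_ne (z : Omega) : dl z.1 ≠ 0 := by
  intro h
  apply z.2.2
  have h0 := congrArg Complex.re h
  have h1 := congrArg Complex.im h
  simp [dl] at h0 h1
  rw [Fin.forall_fin_two]
  exact ⟨h0, h1⟩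

theorem dl_zz (t : ℝ × ℝ × ℂ) : dl (zz t) = exp (2 * t.2.2) := by
  rw [dl, zz_zero_im, zz_one_im, re_add_im]

/-- local section through a point of the simply connected covering -/
noncomputable def secPre (w : ℂ) (z : Fin 2 → ℂ) : ℝ × ℝ × ℂ :=
  ((z 0).re, (z 1).re, w + log (dl z / exp (2 * w)) / 2)

theorem zz_secPre (w : ℂ) (z : Fin 2 → ℂ) (hz : dl z ≠ 0) : zz (secPre w z) = z := by
  have he : exp (2 * (secPre w z).2.2) = dl z := by
    show exp (2 * (w + log (dl z / exp (2 * w)) / 2)) = dl z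
    have h1 : dl z / exp (2 * w) ≠ 0 := div_ne_zero hz (exp_ne_zero _)
    rw [mul_add, mul_div_cancel₀ _ (two_ne_zero), exp_add, exp_log h1,
      mul_div_cancel₀ _ (exp_ne_zero _)]
  ext i
  fin_cases i
  · show zz (secPre w z) 0 = z 0
    apply Complex.ext
    · rw [zz_zero_re]; rfl
    · rw [zz_zero_im, he]; simp [dl]
  · show zz (secPre w z) 1 = z 1
    apply Complex.ext
    · rw [zz_one_re]; rfl
    · rw [zz_one_im, he]; simp [dl]

/-- section of the simply connected covering, continuous near one point -/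
noncomputable def secT (w : ℂ) (z : Omega) : T :=
  ⟨secPre w z.1, by rw [zz_secPre w z.1 (dl_ne z)]; exact z.2⟩

theorem pT_secT (w : ℂ) (z : Omega) : pT (secT w z) = z := by
  apply Subtype.ext
  exact zz_secPre w z.1 (dl_ne z)

theorem secT_pT (t : T) : secT t.1.2.2 (pT t) = t := by
  apply Subtype.ext
  show secPre t.1.2.2 (zz t.1) = t.1
  unfold secPre
  rw [dl_zz, div_self (exp_ne_zero _), log_one, zero_div, add_zero, zz_zero_re, zz_one_re]

theorem continuous_dl : Continuous dl := by unfold dl; fun_prop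

theorem secT_continuousAt (t : T) : ContinuousAt (secT t.1.2.2) (pT t) := by
  refine (Topology.IsInducing.subtypeVal (Y := ℝ × ℝ × ℂ)
      (t := {t | zz t ∈ Omega})).continuousAt_iff.mpr ?_
  show ContinuousAt (fun z : Omega => secPre t.1.2.2 z.1) (pT t)
  have h0 : ContinuousAt (fun z : Omega => z.1 0) (pT t) :=
    ((continuous_apply (0 : Fin 2)).comp continuous_subtype_val).continuousAt
  have h1 : ContinuousAt (fun z : Omega => z.1 1) (pT t) :=
    ((continuous_apply (1 : Fin 2)).comp continuous_subtype_val).continuousAt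
  refine (continuous_re.continuousAt.comp h0).prodMk ((continuous_re.continuousAt.comp h1).prodMk
    (continuousAt_const.add (ContinuousAt.div_const ?_ 2)))
  have h2 : ContinuousAt (fun z : Omega => dl z.1 / exp (2 * t.1.2.2)) (pT t) :=
    ((continuous_dl.comp continuous_subtype_val).div_const _).continuousAt
  refine h2.clog ?_
  rw [pT_coe, dl_zz, div_self (exp_ne_zero _)]
  exact one_mem_slitPlane

/-- the deck transformation -/
noncomputable def tau (k : ℤ) (t : ℝ × ℝ × ℂ) : ℝ × ℝ × ℂ := (t.1, t.2.1, t.2.2 + k * (Real.pi * I))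

theorem exp_tau (k : ℤ) (t : ℝ × ℝ × ℂ) : exp (2 * (tau k t).2.2) = exp (2 * t.2.2) := by
  show exp (2 * (t.2.2 + k * (Real.pi * I))) = _
  rw [mul_add, exp_add]
  have : exp (2 * (k * (Real.pi * I))) = 1 := by
    rw [exp_eq_one_iff]
    exact ⟨k, by ring⟩
  rw [this, mul_one]

theorem zz_tau (k : ℤ) (t : ℝ × ℝ × ℂ) : zz (tau k t) = zz t := by
  unfold zz
  rw [exp_tau]
  rfl

noncomputable def tauT (k : ℤ) (t : T) : T := ⟨tau k t.1, by rw [zz_tau]; exact t.2⟩

theorem pT_tauT (k : ℤ) (t : T) : pT (tauT k t) = pT t := by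
  apply Subtype.ext
  exact zz_tau k t.1

theorem continuous_tauT (k : ℤ) : Continuous (tauT k) := by
  refine Continuous.subtype_mk ?_ _
  unfold tau
  fun_prop

theorem tauT_add (j k : ℤ) (t : T) : tauT (j + k) t = tauT j (tauT k t) := by
  apply Subtype.ext
  show tau (j + k) t.1 = tau j (tau k t.1)
  unfold tau
  simp only [Prod.mk.injEq, true_and]
  push_cast
  ring

theorem tauT_zero (t : T) : tauT 0 t = t := by
  apply Subtype.ext
  show tau 0 t.1 = t.1
  unfold tau
  simp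

/-- fibres of the simply connected covering -/
theorem fibre (t t' : T) (h : pT t = pT t') : ∃ k : ℤ, t' = tauT k t := by
  have hz : zz t.1 = zz t'.1 := congrArg Subtype.val h
  have he : exp (2 * t.1.2.2) = exp (2 * t'.1.2.2) := by rw [← dl_zz, ← dl_zz, hz]
  obtain ⟨n, hn⟩ := exp_eq_exp_iff_exists_int.mp he.symm
  refine ⟨n, ?_⟩
  apply Subtype.ext
  show t'.1 = tau n t.1
  unfold tau
  have h0 := congrFun hz 0
  have h1 := congrFun hz 1
  apply Prod.ext
  · have := congrArg Complex.re h0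
    rw [zz_zero_re, zz_zero_re] at this
    exact this.symm
  · apply Prod.ext
    · have := congrArg Complex.re h1
      rw [zz_one_re, zz_one_re] at this
      exact this.symm
    · show t'.1.2.2 = t.1.2.2 + n * (Real.pi * I)
      linear_combination hn / 2

theorem exp_tau_even (k : ℤ) (t : ℝ × ℝ × ℂ) : exp (tau (2 * k) t).2.2 = exp t.2.2 := by
  show exp (t.2.2 + ((2 * k : ℤ) : ℂ) * (Real.pi * I)) = _
  rw [exp_add]
  have : exp (((2 * k : ℤ) : ℂ) * (Real.pi * I)) = 1 := by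
    rw [exp_eq_one_iff]
    exact ⟨k, by push_cast; ring⟩
  rw [this, mul_one]

theorem exp_tau_odd (k : ℤ) (t : ℝ × ℝ × ℂ) : exp (tau (2 * k + 1) t).2.2 = -exp t.2.2 := by
  show exp (t.2.2 + ((2 * k + 1 : ℤ) : ℂ) * (Real.pi * I)) = _
  rw [exp_add]
  have : exp (((2 * k + 1 : ℤ) : ℂ) * (Real.pi * I)) = -1 := by
    push_cast
    rw [add_mul, one_mul, exp_add, exp_pi_mul_I]
    have : exp (2 * (k : ℂ) * (Real.pi * I)) = 1 := by
      rw [exp_eq_one_iff]
      exact ⟨k, by ring⟩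
    rw [this, one_mul]
  rw [this, mul_neg, mul_one]

end final

section cover

variable {D : Type} [TopologicalSpace D] [ConnectedSpace D] (p : D → Omega)

theorem no_section (hp : IsCoveringMap p) (h2 : ∀ z, (p ⁻¹' {z}).ncard = 2)
    (σ : Omega → D) (hσ : Continuous σ) (hs : ∀ z, p (σ z) = z) : False := by
  have z₀ : Omega := p (Classical.arbitrary D)
  have h := hp.isSeparatedMap.eq_of_comp_eq hp.isLocalHomeomorph.isLocallyInjective
    (hσ.comp hp.continuous) continuous_id (by funext d; exact hs (p d)) (σ z₀)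
    (by show σ (p (σ z₀)) = σ z₀; rw [hs])
  obtain ⟨x, y, hxy, he⟩ := Set.ncard_eq_two.mp (h2 z₀)
  have hx : p x = z₀ := by
    have : x ∈ p ⁻¹' {z₀} := by rw [he]; simp
    exact this
  have hy : p y = z₀ := by
    have : y ∈ p ⁻¹' {z₀} := by rw [he]; simp
    exact this
  apply hxy
  have e1 : σ (p x) = x := congrFun h x
  have e2 : σ (p y) = y := congrFun h y
  rw [← e1, ← e2, hx, hy]

theorem exists_lift (hp : IsCoveringMap p) (h2 : ∀ z, (p ⁻¹' {z}).ncard = 2) :
    ∃ g : C(T, D), ∀ t, p (g t) = pT t := by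
  have t₀ : T := Classical.arbitrary T
  obtain ⟨x, y, hxy, he⟩ := Set.ncard_eq_two.mp (h2 (pT t₀))
  have hx : p x = pT t₀ := by
    have : x ∈ p ⁻¹' {pT t₀} := by rw [he]; simp
    exact this
  obtain ⟨g, ⟨-, hg⟩, -⟩ := hp.existsUnique_continuousMap_lifts pT t₀ x hx
  exact ⟨g, fun t => congrFun hg t⟩

variable {p}

theorem lift_ne (hp : IsCoveringMap p) (h2 : ∀ z, (p ⁻¹' {z}).ncard = 2)
    (g : C(T, D)) (hg : ∀ t, p (g t) = pT t) (t : T) : g (tauT 1 t) ≠ g t := by
  intro heq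
  have h := hp.isSeparatedMap.eq_of_comp_eq hp.isLocalHomeomorph.isLocallyInjective
    (g.continuous.comp (continuous_tauT 1)) g.continuous
    (by funext t; show p (g (tauT 1 t)) = p (g t); rw [hg, hg, pT_tauT]) t heq
  have h1 : ∀ t, g (tauT 1 t) = g t := fun t => congrFun h t
  have hk : ∀ (k : ℤ) (t : T), g (tauT k t) = g t := by
    intro k
    induction k using Int.induction_on with
    | zero => intro t; rw [tauT_zero]
    | succ n ih => intro t; rw [tauT_add, ih, h1]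
    | pred n ih =>
      intro t
      have e : tauT (-(n : ℤ)) t = tauT 1 (tauT (-(n : ℤ) - 1) t) := by
        rw [← tauT_add]; congr 1; ring
      rw [← h1, ← e, ih]
  refine no_section p hp h2 (fun z => g (secT 0 z)) ?_ (fun z => by rw [hg, pT_secT])
  rw [continuous_iff_continuousAt]
  intro z
  set t₁ := secT 0 z with ht₁
  have hz : pT t₁ = z := pT_secT 0 z
  have hc : ContinuousAt (fun z => g (secT t₁.1.2.2 z)) z := by
    have h3 := secT_continuousAt t₁
    rw [hz] at h3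
    exact g.continuous.continuousAt.comp h3
  refine hc.congr (Eventually.of_forall fun z' => ?_)
  obtain ⟨k, hk'⟩ := fibre (secT 0 z') (secT t₁.1.2.2 z') (by rw [pT_secT, pT_secT])
  show g (secT t₁.1.2.2 z') = g (secT 0 z')
  rw [hk', hk]

theorem mem_fibre (h2 : ∀ z, (p ⁻¹' {z}).ncard = 2) {a b d : D} (hab : a ≠ b)
    (h : p a = p b) (hd : p d = p a) : d = a ∨ d = b := by
  obtain ⟨x, y, hxy, he⟩ := Set.ncard_eq_two.mp (h2 (p a))
  have ha : a = x ∨ a = y := by
    have : a ∈ p ⁻¹' {p a} := rfl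
    rw [he] at this; simpa using this
  have hb : b = x ∨ b = y := by
    have : b ∈ p ⁻¹' {p a} := h.symm
    rw [he] at this; simpa using this
  have hd' : d = x ∨ d = y := by
    have : d ∈ p ⁻¹' {p a} := hd
    rw [he] at this; simpa using this
  rcases ha with rfl | rfl <;> rcases hb with rfl | rfl <;> rcases hd' with rfl | rfl <;> simp_all

theorem lift_two (hp : IsCoveringMap p) (h2 : ∀ z, (p ⁻¹' {z}).ncard = 2)
    (g : C(T, D)) (hg : ∀ t, p (g t) = pT t) (t : T) : g (tauT 2 t) = g t := by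
  have h1 := lift_ne hp h2 g hg t
  have h3 := lift_ne hp h2 g hg (tauT 1 t)
  rw [← tauT_add] at h3
  have h4 : g (tauT 2 t) = g t ∨ g (tauT 2 t) = g (tauT 1 t) := by
    apply mem_fibre h2 h1.symm
    · rw [hg, hg, pT_tauT]
    · rw [hg, hg, pT_tauT]
  rcases h4 with h | h
  · exact h
  · exact absurd h h3

theorem lift_even (hp : IsCoveringMap p) (h2 : ∀ z, (p ⁻¹' {z}).ncard = 2)
    (g : C(T, D)) (hg : ∀ t, p (g t) = pT t) (k : ℤ) : ∀ t : T, g (tauT (2 * k) t) = g t := by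
  have h1 := lift_two hp h2 g hg
  induction k using Int.induction_on with
  | zero => intro t; rw [mul_zero, tauT_zero]
  | succ n ih =>
    intro t
    rw [mul_add, mul_one, tauT_add, ih, h1]
  | pred n ih =>
    intro t
    have e : tauT (2 * (-(n : ℤ))) t = tauT 2 (tauT (2 * (-(n : ℤ) - 1)) t) := by
      rw [← tauT_add]; congr 1; ring
    rw [← h1, ← e, ih]

theorem lift_eq_iff (hp : IsCoveringMap p) (h2 : ∀ z, (p ⁻¹' {z}).ncard = 2)
    (g : C(T, D)) (hg : ∀ t, p (g t) = pT t) (t t' : T) :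
    g t = g t' ↔ zz t.1 = zz t'.1 ∧ exp t.1.2.2 = exp t'.1.2.2 := by
  constructor
  · intro h
    have hpt : pT t = pT t' := by rw [← hg, ← hg, h]
    refine ⟨congrArg Subtype.val hpt, ?_⟩
    obtain ⟨k, rfl⟩ := fibre t t' hpt
    rcases Int.even_or_odd' k with ⟨j, rfl | rfl⟩
    · exact (exp_tau_even j t.1).symm
    · exfalso
      rw [tauT_add, lift_even hp h2 g hg] at h
      exact lift_ne hp h2 g hg t h.symm
  · rintro ⟨h1, h3⟩
    have hpt : pT t = pT t' := Subtype.ext h1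
    obtain ⟨k, rfl⟩ := fibre t t' hpt
    rcases Int.even_or_odd' k with ⟨j, rfl | rfl⟩
    · rw [lift_even hp h2 g hg]
    · exfalso
      have h4 : exp t.1.2.2 = -exp t.1.2.2 := h3.trans (exp_tau_odd j t.1)
      have h5 : exp t.1.2.2 = 0 := by linear_combination h4 / 2
      exact exp_ne_zero _ h5

theorem lift_surj (hp : IsCoveringMap p) (h2 : ∀ z, (p ⁻¹' {z}).ncard = 2)
    (g : C(T, D)) (hg : ∀ t, p (g t) = pT t) (d : D) : ∃ t, g t = d := by
  set t₁ := secT 0 (p d) with ht₁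
  have h1 : p (g t₁) = p d := by rw [hg, pT_secT]
  have h3 := lift_ne hp h2 g hg t₁
  have h4 : d = g t₁ ∨ d = g (tauT 1 t₁) := by
    apply mem_fibre h2 h3.symm
    · rw [hg, hg, pT_tauT]
    · rw [h1]
  rcases h4 with h | h
  · exact ⟨_, h.symm⟩
  · exact ⟨_, h.symm⟩

end cover

/-- There is a compact (connected) complex manifold `X`, of dimension three, such
that for the connected two-sheeted unramified covering `p : D → Ω` of the bidisk minus the real
plane, with the complex structure pulled back by `p`, there is an injective holomorphic map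
`f : D → X`. -/
theorem exists_threefold :
    ∃ (X : Type) (_ : TopologicalSpace X) (_ : ChartedSpace (Fin 3 → ℂ) X),
      IsManifold 𝓘(ℂ, Fin 3 → ℂ) ω X ∧ CompactSpace X ∧ T2Space X ∧ ConnectedSpace X ∧
      SecondCountableTopology X ∧
      ∀ (D : Type) [TopologicalSpace D] [ChartedSpace (Fin 2 → ℂ) D]
        [IsManifold 𝓘(ℂ, Fin 2 → ℂ) ω D] [ConnectedSpace D] (p : D → Omega),
        IsCoveringMap p → (∀ z : Omega, (p ⁻¹' {z}).ncard = 2) →
        IsLocalDiffeomorph 𝓘(ℂ, Fin 2 → ℂ) 𝓘(ℂ, Fin 2 → ℂ) ω (fun d => (p d : Fin 2 → ℂ)) →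
        ∃ f : D → X, ContMDiff 𝓘(ℂ, Fin 2 → ℂ) 𝓘(ℂ, Fin 3 → ℂ) ω f ∧ Function.Injective f := by
  refine ⟨X, inferInstance, inferInstance, inferInstance, inferInstance, inferInstance,
    inferInstance, inferInstance, ?_⟩
  intro D _ _ _ _ p hp h2 hloc
  obtain ⟨c, hc⟩ := exists_good
  obtain ⟨g, hg⟩ := exists_lift p hp h2
  have hsurj := lift_surj hp h2 g hg
  choose ch hch using hsurj
  let f : D → X := fun d => q (par c (ch d).1)
  have hfg : ∀ t, f (g t) = q (par c t.1) := by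
    intro t
    have h1 : g (ch (g t)) = g t := hch (g t)
    obtain ⟨h3, h4⟩ := (lift_eq_iff hp h2 g hg _ _).mp h1
    show q (par c (ch (g t)).1) = _
    rw [par_eq c _ _ h3 h4]
  refine ⟨f, ?_, ?_⟩
  · intro d
    obtain ⟨t, ht⟩ : ∃ t, g t = d := ⟨ch d, hch d⟩
    have hpd : p d = pT t := by rw [← ht, hg]
    have hpc : ContinuousAt p d := hp.continuous.continuousAt
    have hsc : ContinuousAt (fun d' => secT t.1.2.2 (p d')) d := by
      refine ContinuousAt.comp (g := secT t.1.2.2) ?_ hpc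
      rw [hpd]; exact secT_continuousAt t
    have hval : secT t.1.2.2 (p d) = t := by rw [hpd, secT_pT]
    refine contMDiffAt_quot dev dev_local q q_local sec sec_q transitions f d
      (fun d' => par c (secT t.1.2.2 (p d')).1) ?_ ?_ ?_
    · have h3 : Continuous (fun t : T => par c t.1) :=
        continuous_par.comp (continuous_const.prodMk continuous_subtype_val)
      exact h3.continuousAt.comp hsc
    · obtain ⟨U, hU, hdU, hinj⟩ := hp.isLocalHomeomorph.isLocallyInjective d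
      have h4 : ∀ᶠ d' in 𝓝 d, d' ∈ U := hU.mem_nhds hdU
      have h5 : ContinuousAt (fun d' => g (secT t.1.2.2 (p d'))) d :=
        g.continuous.continuousAt.comp hsc
      have h6 : ∀ᶠ d' in 𝓝 d, g (secT t.1.2.2 (p d')) ∈ U := by
        apply h5.eventually_mem
        rw [hval, ht]
        exact hU.mem_nhds hdU
      filter_upwards [h4, h6] with d' h7 h8
      have h9 : g (secT t.1.2.2 (p d')) = d' := by
        apply hinj h8 h7
        rw [hg, pT_secT]
      show f d' = q (par c (secT t.1.2.2 (p d')).1)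
      rw [← hfg, h9]
    · have h3 : (fun d' => dev (par c (secT t.1.2.2 (p d')).1)) =
          (fun z : Fin 2 → ℂ => (![z 0, z 1, c] : Fin 3 → ℂ)) ∘ (fun d => (p d : Fin 2 → ℂ)) := by
        funext d'
        show ![zz _ 0, zz _ 1, c] = ![(p d' : Fin 2 → ℂ) 0, (p d' : Fin 2 → ℂ) 1, c]
        have h4 : zz (secT t.1.2.2 (p d')).1 = (p d' : Fin 2 → ℂ) :=
          congrArg Subtype.val (pT_secT t.1.2.2 (p d'))
        rw [h4]
      rw [h3]
      have h5 : ContDiff ℂ ω (fun z : Fin 2 → ℂ => (![z 0, z 1, c] : Fin 3 → ℂ)) := by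
        rw [contDiff_pi]
        intro i
        fin_cases i
        · exact contDiff_apply ℂ ℂ (0 : Fin 2)
        · exact contDiff_apply ℂ ℂ (1 : Fin 2)
        · exact contDiff_const
      exact h5.contMDiff.contMDiffAt.comp d hloc.contMDiff.contMDiffAt
  · intro d d' hdd
    obtain ⟨t, rfl⟩ : ∃ t, g t = d := ⟨ch d, hch d⟩
    obtain ⟨t', rfl⟩ : ∃ t', g t' = d' := ⟨ch d', hch d'⟩
    rw [hfg, hfg] at hdd
    rw [lift_eq_iff hp h2 g hg]
    exact q_par_inj c hc _ _ hdd

section exist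

theorem etale_isManifold {E : Type*} [NormedAddCommGroup E] [NormedSpace ℂ E]
    {Y : Type*} [TopologicalSpace Y] (π : Y → E) (h : IsLocalHomeomorph π) :
    @IsManifold ℂ _ E _ _ E _ 𝓘(ℂ, E) ω Y _ (etale π h) := by
  let _ := etale π h
  refine isManifold_of_contDiffOn 𝓘(ℂ, E) ω Y ?_
  rintro _ _ ⟨y₁, rfl⟩ ⟨y₂, rfl⟩
  let c₁ := (h y₁).choose
  let c₂ := (h y₂).choose
  have hc₁ : (c₁ : Y → E) = π := chart_coe π h _
  have hc₂ : (c₂ : Y → E) = π := chart_coe π h _
  refine (contDiff_id.contDiffOn (𝕜 := ℂ) (n := ω) (E := E)).congr ?_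
  intro t ht
  have hmem : t ∈ c₁.target := by
    have := ht.1
    simp only [mfld_simps] at this
    exact this.1
  show c₂ (c₁.symm t) = t
  rw [hc₂, ← hc₁, c₁.right_inv hmem]

/-- the double covering of the bidisk minus the real plane -/
abbrev D₀ : Type := Root (fun z : Omega => dl z.1)

/-- its projection -/
def p₀ (y : D₀) : Omega := y.1.1

theorem p₀_local : IsLocalHomeomorph p₀ :=
  root_isLocalHomeomorph _ (continuous_dl.comp continuous_subtype_val)

/-- its projection to `ℂ²` -/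
def π₀ (y : D₀) : Fin 2 → ℂ := y.1.1.1

theorem π₀_local : IsLocalHomeomorph π₀ :=
  (isOpen_Omega.isOpenEmbedding_subtypeVal.isLocalHomeomorph).comp p₀_local

noncomputable instance : ChartedSpace (Fin 2 → ℂ) D₀ := etale π₀ π₀_local

instance : IsManifold 𝓘(ℂ, Fin 2 → ℂ) ω D₀ := etale_isManifold π₀ π₀_local

noncomputable instance : SMul ℤˣ D₀ where
  smul v y := ⟨(y.1.1, ((v : ℤ) : ℂ) * y.1.2), by
    have hv : ((v : ℤ) : ℂ) ^ 2 = 1 := by
      have h2 := congrArg Units.val (Int.units_sq v)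
      rw [Units.val_pow_eq_pow_val, Units.val_one] at h2
      exact_mod_cast h2
    constructor
    · refine mul_ne_zero ?_ y.2.1
      intro h
      rw [h] at hv
      norm_num at hv
    · rw [mul_pow, hv, one_mul]
      exact y.2.2⟩

theorem smul0_fst (v : ℤˣ) (y : D₀) : (v • y).1.1 = y.1.1 := rfl
theorem smul0_snd (v : ℤˣ) (y : D₀) : (v • y).1.2 = ((v : ℤ) : ℂ) * y.1.2 := rfl

noncomputable instance : MulAction ℤˣ D₀ where
  one_smul y := by
    apply Subtype.ext
    apply Prod.ext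
    · rfl
    · rw [smul0_snd]; simp
  mul_smul v w y := by
    apply Subtype.ext
    apply Prod.ext
    · rfl
    · rw [smul0_snd, smul0_snd, smul0_snd]
      push_cast
      ring

instance : ContinuousConstSMul ℤˣ D₀ where
  continuous_const_smul v := by
    refine Continuous.subtype_mk ?_ _
    exact (continuous_fst.comp continuous_subtype_val).prodMk
      (continuous_const.mul (continuous_snd.comp continuous_subtype_val))

instance : IsCancelSMul ℤˣ D₀ := by
  rw [isCancelSMul_iff_eq_one_of_smul_eq]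
  intro v y h
  have h2 : ((v : ℤ) : ℂ) * y.1.2 = y.1.2 := by rw [← smul0_snd, h]
  have h3 : ((v : ℤ) : ℂ) = 1 := mul_right_cancel₀ y.2.1 (h2.trans (one_mul _).symm)
  have h4 : (v : ℤ) = 1 := by exact_mod_cast h3
  exact Units.ext h4

instance : LocallyCompactSpace D₀ := ChartedSpace.locallyCompactSpace (Fin 2 → ℂ) D₀

theorem p₀_surj : Function.Surjective p₀ := by
  intro z
  refine ⟨⟨(z, sq (dl z.1)), ?_, sq_sq (dl_ne z)⟩, rfl⟩
  intro h
  have h1 := sq_sq (dl_ne z)
  apply dl_ne z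
  rw [← h1]
  show sq (dl z.1) ^ 2 = 0
  rw [show sq (dl z.1) = 0 from h]
  simp

theorem p₀_eq (y₁ y₂ : D₀) : p₀ y₁ = p₀ y₂ ↔ y₁ ∈ MulAction.orbit ℤˣ y₂ := by
  constructor
  · intro h
    have h1 : y₁.1.2 ^ 2 = y₂.1.2 ^ 2 := by
      rw [y₁.2.2, y₂.2.2]
      have : y₁.1.1 = y₂.1.1 := h
      rw [this]
    rcases sq_eq_sq_iff_eq_or_eq_neg.mp h1 with h2 | h2
    · refine ⟨1, ?_⟩
      apply Subtype.ext
      apply Prod.ext
      · exact h.symm
      · show (((1 : ℤˣ) : ℤ) : ℂ) * y₂.1.2 = y₁.1.2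
        rw [h2]; simp
    · refine ⟨-1, ?_⟩
      apply Subtype.ext
      apply Prod.ext
      · exact h.symm
      · show (((-1 : ℤˣ) : ℤ) : ℂ) * y₂.1.2 = y₁.1.2
        rw [h2]; simp
  · rintro ⟨v, rfl⟩
    rfl

theorem p₀_covering : IsCoveringMap p₀ := by
  have hq : Topology.IsQuotientMap p₀ :=
    p₀_local.isOpenMap.isQuotientMap p₀_local.continuous p₀_surj
  exact (hq.isQuotientCoveringMap_of_properlyDiscontinuousSMul (G := ℤˣ)
    (fun {y₁ y₂} => p₀_eq y₁ y₂)).isCoveringMap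

theorem p₀_card (z : Omega) : (p₀ ⁻¹' {z}).ncard = 2 := by
  obtain ⟨y, rfl⟩ := p₀_surj z
  rw [Set.ncard_eq_two]
  refine ⟨y, (-1 : ℤˣ) • y, ?_, ?_⟩
  · intro h
    have := (isCancelSMul_iff_eq_one_of_smul_eq.mp inferInstance) (-1 : ℤˣ) y h.symm
    exact absurd this (by decide)
  · ext y'
    constructor
    · intro h
      obtain ⟨v, rfl⟩ := (p₀_eq y' y).mp h
      rcases Int.units_eq_one_or v with rfl | rfl
      · left; exact one_smul _ y
      · right; rfl
    · rintro (rfl | rfl)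
      · rfl
      · rfl

instance : ConnectedSpace D₀ := by
  let φ : T → D₀ := fun t => ⟨(pT t, exp t.1.2.2), exp_ne_zero _, by
    show exp t.1.2.2 ^ 2 = dl (zz t.1)
    rw [dl_zz, ← exp_nat_mul]
    push_cast
    rfl⟩
  have hφ : Continuous φ := by
    refine Continuous.subtype_mk ?_ _
    exact pT.continuous.prodMk (continuous_exp.comp
      (continuous_snd.comp (continuous_snd.comp continuous_subtype_val)))
  have hs : Function.Surjective φ := by
    intro y
    have he : exp (log y.1.2) = y.1.2 := exp_log y.2.1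
    have he2 : exp (2 * log y.1.2) = dl y.1.1.1 := by
      have := exp_nat_mul (log y.1.2) 2
      rw [he, y.2.2] at this
      push_cast at this
      exact this
    have hz : zz ((y.1.1.1 0).re, (y.1.1.1 1).re, log y.1.2) = y.1.1.1 := by
      ext i
      fin_cases i
      · show zz _ 0 = y.1.1.1 0
        apply Complex.ext
        · rw [zz_zero_re]
        · rw [zz_zero_im]
          show (exp (2 * log y.1.2)).re = _
          rw [he2]; simp [dl]
      · show zz _ 1 = y.1.1.1 1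
        apply Complex.ext
        · rw [zz_one_re]
        · rw [zz_one_im]
          show (exp (2 * log y.1.2)).im = _
          rw [he2]; simp [dl]
    refine ⟨⟨((y.1.1.1 0).re, (y.1.1.1 1).re, log y.1.2), by rw [hz]; exact y.1.1.2⟩, ?_⟩
    apply Subtype.ext
    apply Prod.ext
    · apply Subtype.ext
      exact hz
    · exact he
  exact hs.connectedSpace hφ

theorem π₀_diffeo :
    IsLocalDiffeomorph 𝓘(ℂ, Fin 2 → ℂ) 𝓘(ℂ, Fin 2 → ℂ) ω (fun d => (p₀ d : Fin 2 → ℂ)) := by
  intro y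
  let c : OpenPartialHomeomorph D₀ (Fin 2 → ℂ) := chartAt (Fin 2 → ℂ) y
  have hc : (c : D₀ → Fin 2 → ℂ) = π₀ := chart_coe π₀ π₀_local y
  refine ⟨⟨c.toPartialEquiv, c.open_source, c.open_target, contMDiffOn_chart,
    contMDiffOn_chart_symm⟩, mem_chart_source _ y, ?_⟩
  intro y' _
  show π₀ y' = c y'
  rw [hc]

theorem exists_cover :
    ∃ (D : Type) (_ : TopologicalSpace D) (_ : ChartedSpace (Fin 2 → ℂ) D) (p : D → Omega),
      IsTwoSheetedCover D p :=
  ⟨D₀, inferInstance, inferInstance, p₀, inferInstance, inferInstance, p₀_covering, p₀_card,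
    π₀_diffeo⟩

end exist

/-- The connected two-sheeted covering of the bidisk minus the real plane exists, and there is a
compact connected complex manifold `X` of dimension three such that for every such covering
`p : D → Omega` there is an injective holomorphic map `D → X`. -/
theorem result :
    (∃ (D : Type) (_ : TopologicalSpace D) (_ : ChartedSpace (Fin 2 → ℂ) D) (p : D → Omega),
      IsTwoSheetedCover D p) ∧
    ∃ (X : Type) (_ : TopologicalSpace X) (_ : ChartedSpace (Fin 3 → ℂ) X),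
      IsManifold 𝓘(ℂ, Fin 3 → ℂ) ω X ∧ CompactSpace X ∧ T2Space X ∧ ConnectedSpace X ∧
      SecondCountableTopology X ∧
      ∀ (D : Type) [TopologicalSpace D] [ChartedSpace (Fin 2 → ℂ) D] (p : D → Omega),
        IsTwoSheetedCover D p →
        ∃ f : D → X, ContMDiff 𝓘(ℂ, Fin 2 → ℂ) 𝓘(ℂ, Fin 3 → ℂ) ω f ∧ Function.Injective f := by
  refine ⟨exists_cover, ?_⟩
  obtain ⟨X, t1, t2, h1, h2, h3, h4, h5, h6⟩ := exists_threefold
  refine ⟨X, t1, t2, h1, h2, h3, h4, h5, ?_⟩
  intro D _ _ p ⟨i1, i2, i3, i4, i5⟩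
  exact h6 D p i3 i4 i5

end Pool.Agent.Results.MP_c7085a_an.PointSep
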